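import Mathlib

/-!
Primes which are inert for a point `z` of the upper half plane, and the arithmetic of the Hecke
neighbours of `z`.
-/

set_option autoImplicit false

open scoped NumberTheorySymbols

namespace Pool.Agent.N661.SN

/-- every integral matrix which fixes `z` and whose determinant is divisible by `p` is divisible by
`p` -/
def Good (z : ℂ) (p : ℕ) : Prop :=
  ∀ α β γ δ : ℤ, (γ : ℂ) * z ^ 2 + ((δ : ℂ) - α) * z - β = 0 → (p : ℤ) ∣ α * δ - β * γ →
    (p : ℤ) ∣ α ∧ (p : ℤ) ∣ β ∧ (p : ℤ) ∣ γ ∧ (p : ℤ) ∣ δ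

theorem jac {d p : ℕ} (hd : 0 < d) (hp : p.Prime) (hmod : p % (4 * d) = 4 * d - 1) :
    J(-(d : ℤ) | p) = -1 := by
  have hp2 : p ≠ 2 := by
    rintro rfl
    have h1 : 2 % (4 * d) = 2 := Nat.mod_eq_of_lt (by omega)
    omega
  have hodd : Odd p := hp.odd_of_ne_two hp2
  rw [jacobiSym.mod_right _ hodd]
  have hn : (-(d : ℤ)).natAbs = d := by simp
  rw [hn, hmod]
  have hodd' : Odd (4 * d - 1) := ⟨2 * d - 1, by omega⟩
  have h1 : J(-1 | 4 * d - 1) = -1 := by
    rw [jacobiSym.at_neg_one hodd', ZMod.χ₄_nat_three_mod_four (by omega)]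
  have h2 : J((d : ℤ) | 4 * d - 1) = 1 := by
    have h3 : J(2 ^ 2 * (d : ℤ) | 4 * d - 1) = 1 := by
      have h4 : J(2 ^ 2 * (d : ℤ) | 4 * d - 1) = J(1 | 4 * d - 1) := by
        apply jacobiSym.mod_left'
        have : (2 ^ 2 * (d : ℤ)) = 1 + ((4 * d - 1 : ℕ) : ℤ) * 1 := by
          push_cast [Nat.cast_sub (show 1 ≤ 4 * d by omega)]
          ring
        rw [this, Int.add_mul_emod_self_left]
      rw [h4, jacobiSym.one_left]
    rw [jacobiSym.mul_left, jacobiSym.sq_one', one_mul] at h3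
    · exact h3
    · have : Nat.Coprime 2 (4 * d - 1) := by
        rw [Nat.coprime_two_left]
        exact hodd'
      simpa [Int.gcd] using this
  rw [show -(d : ℤ) = -1 * d by ring, jacobiSym.mul_left, h1, h2]
  norm_num

/-- there are arbitrarily large good primes -/
theorem exists_good {z : ℂ} (hz : 0 < z.im) (n : ℕ) : ∃ p, n < p ∧ p.Prime ∧ Good z p := by
  by_cases hcm : ∃ A B C : ℤ, (A ≠ 0 ∨ B ≠ 0 ∨ C ≠ 0) ∧ (A : ℂ) * z ^ 2 + B * z + C = 0
  · obtain ⟨A, B, C, hABC, hQ⟩ := hcm
    have hre := congrArg Complex.re hQ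
    have him := congrArg Complex.im hQ
    simp [sq] at hre him
    have him' : 2 * (A : ℝ) * z.re + B = 0 := by
      have h : z.im * (2 * (A : ℝ) * z.re + B) = 0 := by linarith
      exact (mul_eq_zero.1 h).resolve_left hz.ne'
    have hA : A ≠ 0 := by
      rintro rfl
      simp only [Int.cast_zero, mul_zero, zero_mul, zero_add] at him' hre
      have hB : B = 0 := by exact_mod_cast him'
      subst hB
      simp only [Int.cast_zero, zero_mul, zero_add] at hre
      have hC : C = 0 := by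
        have : (C : ℝ) = 0 := by linarith
        exact_mod_cast this
      simp [hC] at hABC
    have hA' : (A : ℝ) ≠ 0 := by exact_mod_cast hA
    have hD : ((B ^ 2 - 4 * A * C : ℤ) : ℝ) = -(4 * (A : ℝ) ^ 2 * z.im ^ 2) := by
      have hB : (B : ℝ) = -(2 * A * z.re) := by linarith
      have hC : (C : ℝ) = -(A * (z.re * z.re - z.im * z.im)) - B * z.re := by linarith
      push_cast
      rw [hC, hB]
      ring
    have hDneg : B ^ 2 - 4 * A * C < 0 := by
      have h1 : 0 < 4 * (A : ℝ) ^ 2 * z.im ^ 2 := by positivity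
      have h2 : ((B ^ 2 - 4 * A * C : ℤ) : ℝ) < 0 := by rw [hD]; linarith
      exact_mod_cast h2
    obtain ⟨d, hd⟩ : ∃ d : ℕ, (d : ℤ) = -(B ^ 2 - 4 * A * C) :=
      ⟨(-(B ^ 2 - 4 * A * C)).toNat, Int.toNat_of_nonneg (by linarith)⟩
    have hd0 : 0 < d := by
      have : (0 : ℤ) < d := by rw [hd]; linarith
      exact_mod_cast this
    obtain ⟨p, hpn, hpp, hpm⟩ := Nat.forall_exists_prime_gt_and_modEq (n + A.natAbs + 2)
      (q := 4 * d) (a := 4 * d - 1) (by omega) (by
        have h : Nat.Coprime (4 * d - 1) (4 * d - 1 + 1) := (Nat.coprime_self_add_right).2 (by simp)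
        rwa [Nat.sub_add_cancel (by omega)] at h)
    have hmod : p % (4 * d) = 4 * d - 1 := by
      have h := hpm
      unfold Nat.ModEq at h
      rwa [Nat.mod_eq_of_lt (show 4 * d - 1 < 4 * d by omega)] at h
    have hJ := jac hd0 hpp hmod
    have : Fact p.Prime := ⟨hpp⟩
    refine ⟨p, by omega, hpp, ?_⟩
    intro α β γ δ hfix hdet
    have hre2 := congrArg Complex.re hfix
    have him2 := congrArg Complex.im hfix
    simp [sq] at hre2 him2
    have him2' : 2 * (γ : ℝ) * z.re + ((δ : ℝ) - α) = 0 := by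
      have h : z.im * (2 * (γ : ℝ) * z.re + ((δ : ℝ) - α)) = 0 := by linarith
      exact (mul_eq_zero.1 h).resolve_left hz.ne'
    have e1 : A * (δ - α) = γ * B := by
      have : (A : ℝ) * ((δ : ℝ) - α) = γ * B := by
        have h1 : ((δ : ℝ) - α) = -(2 * γ * z.re) := by linarith
        have h2 : (B : ℝ) = -(2 * A * z.re) := by linarith
        rw [h1, h2]; ring
      exact_mod_cast this
    have e2 : -(A * β) = γ * C := by
      have : -((A : ℝ) * β) = γ * C := by
        have h1 : ((δ : ℝ) - α) = -(2 * γ * z.re) := by linarith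
        have h2 : (B : ℝ) = -(2 * A * z.re) := by linarith
        have h3 : (β : ℝ) = γ * (z.re * z.re - z.im * z.im) + ((δ : ℝ) - α) * z.re := by linarith
        have h4 : (C : ℝ) = -(A * (z.re * z.re - z.im * z.im)) - B * z.re := by linarith
        rw [h3, h4, h1, h2]; ring
      exact_mod_cast this
    have hpA : ¬ (p : ℤ) ∣ A := by
      intro h
      have h1 := Int.natAbs_dvd_natAbs.2 h
      have h2 := Nat.le_of_dvd (Int.natAbs_pos.2 hA) h1
      simp at h2
      omega
    have hpi : Prime (p : ℤ) := Nat.prime_iff_prime_int.1 hpp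
    have hkey : (p : ℤ) ∣ (A * (α + δ)) ^ 2 - (-(d : ℤ)) * γ ^ 2 := by
      have : (A * (α + δ)) ^ 2 - (-(d : ℤ)) * γ ^ 2 = 4 * A ^ 2 * (α * δ - β * γ) := by
        rw [hd]
        have e3 : (A * (δ - α)) ^ 2 = (γ * B) ^ 2 := by rw [e1]
        linear_combination e3 - 4 * A * γ * e2
      rw [this]
      exact hdet.mul_left _
    obtain ⟨h1, h2⟩ := jacobiSym.prime_dvd_of_eq_neg_one hJ hkey
    have h3 : (p : ℤ) ∣ α + δ := (hpi.dvd_or_dvd h1).resolve_left hpA
    have h4 : (p : ℤ) ∣ δ - α := by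
      have : (p : ℤ) ∣ A * (δ - α) := by rw [e1]; exact h2.mul_right _
      exact (hpi.dvd_or_dvd this).resolve_left hpA
    have h5 : (p : ℤ) ∣ β := by
      have : (p : ℤ) ∣ A * β := by
        rw [← dvd_neg, e2]; exact h2.mul_right _
      exact (hpi.dvd_or_dvd this).resolve_left hpA
    have hp2 : ¬ (p : ℤ) ∣ 2 := by
      intro h
      have := Int.le_of_dvd (by norm_num) h
      omega
    have h6 : (p : ℤ) ∣ δ := by
      have : (p : ℤ) ∣ 2 * δ := by
        have := dvd_add h3 h4
        rwa [show α + δ + (δ - α) = 2 * δ by ring] at this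
      exact (hpi.dvd_or_dvd this).resolve_left hp2
    have h7 : (p : ℤ) ∣ α := by
      have := dvd_sub h3 h6
      rwa [show α + δ - δ = α by ring] at this
    exact ⟨h7, h5, h2, h6⟩
  · obtain ⟨p, hpn, hpp⟩ := Nat.exists_infinite_primes (n + 1)
    refine ⟨p, by omega, hpp, ?_⟩
    intro α β γ δ hfix hdet
    have h0 : γ = 0 ∧ δ - α = 0 ∧ -β = 0 := by
      by_contra hne
      apply hcm
      refine ⟨γ, δ - α, -β, ?_, ?_⟩
      · by_contra h
        push Not at h
        exact hne h
      · push_cast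
        rw [← hfix]
        ring
    obtain ⟨hγ, hδ, hβ⟩ := h0
    have hβ' : β = 0 := by linarith
    have hδ' : δ = α := by linarith
    subst hγ hβ' hδ'
    have hpi : Prime (p : ℤ) := Nat.prime_iff_prime_int.1 hpp
    have : (p : ℤ) ∣ δ := by
      have h : (p : ℤ) ∣ δ * δ := by simpa using hdet
      exact (hpi.dvd_or_dvd h).elim id id
    exact ⟨this, dvd_zero _, dvd_zero _, this⟩

end Pool.Agent.N661.SN
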