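import Mathlib

/-!
Inert primes and integral matrices which commute with a Hecke matrix up to an integral matrix.
-/

set_option autoImplicit false

open scoped NumberTheorySymbols

namespace Pool.Agent.N661.SN

theorem jac0 {d : ℕ} (hd : 0 < d) : J(-(d : ℤ) | 4 * d - 1) = -1 := by
  have hodd' : Odd (4 * d - 1) := ⟨2 * d - 1, by omega⟩
  have h1 : J(-1 | 4 * d - 1) = -1 := by
    rw [jacobiSym.at_neg_one hodd', ZMod.χ₄_nat_three_mod_four (by omega)]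
  have h2 : J((d : ℤ) | 4 * d - 1) = 1 := by
    have h3 : J(2 ^ 2 * (d : ℤ) | 4 * d - 1) = 1 := by
      have h4 : J(2 ^ 2 * (d : ℤ) | 4 * d - 1) = J(1 | 4 * d - 1) := by
        apply jacobiSym.mod_left'
        have : (2 ^ 2 * (d : ℤ)) = 1 + ((4 * d - 1 : ℕ) : ℤ) * 1 := by
          push_cast [Nat.cast_sub (show 1 ≤ 4 * d by omega)]
          ring
        rw [this, Int.add_mul_emod_self_left]
      rw [h4, jacobiSym.one_left]
    rw [jacobiSym.mul_left, jacobiSym.sq_one', one_mul] at h3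
    · exact h3
    · have : Nat.Coprime 2 (4 * d - 1) := by
        rw [Nat.coprime_two_left]
        exact hodd'
      simpa [Int.gcd] using this
  rw [show -(d : ℤ) = -1 * d by ring, jacobiSym.mul_left, h1, h2]
  norm_num

/-- an odd inert prime below `4 d` -/
theorem exists_inert {d : ℕ} (hd : 0 < d) : ∃ p : ℕ, p.Prime ∧ 3 ≤ p ∧ p < 4 * d ∧
    J(-(d : ℤ) | p) = -1 := by
  obtain ⟨p, hp, hdvd, hJ⟩ := jacobiSym.eq_neg_one_at_prime_divisor_of_eq_neg_one (jac0 hd)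
  have h1 : p ≤ 4 * d - 1 := Nat.le_of_dvd (by omega) hdvd
  have h2 : p ≠ 2 := by
    rintro rfl
    have : Odd (4 * d - 1) := ⟨2 * d - 1, by omega⟩
    rw [← Nat.not_even_iff_odd] at this
    exact this (even_iff_two_dvd.2 hdvd)
  have h3 := hp.two_le
  exact ⟨p, hp, by omega, by omega, hJ⟩

theorem arq {p : ℕ} (hp : p.Prime) (hp3 : 3 ≤ p) {a0 b0 c0 D : ℤ}
    (hD : b0 ^ 2 - 4 * a0 * c0 = D) (hneg : D < 0) (hJ : J(D | p) = -1) {a b d m : ℕ}
    (had : a * d = p ^ m) (hprim : ¬ (p ∣ a ∧ p ∣ b ∧ p ∣ d)) {A1 A2 A3 A4 n u : ℤ}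
    (hn : A1 * A4 - A2 * A3 = n) (hbig : 4 * n < (p : ℤ) ^ m)
    (e1 : (a : ℤ) ^ 2 * A3 = a0 * u) (e2 : 2 * a * b * A3 + a * d * (A4 - A1) = b0 * u)
    (e3 : (b : ℤ) ^ 2 * A3 + b * d * (A4 - A1) - d ^ 2 * A2 = c0 * u) :
    A2 = 0 ∧ A3 = 0 ∧ A1 = A4 := by
  have : Fact p.Prime := ⟨hp⟩
  have hpi : Prime (p : ℤ) := Nat.prime_iff_prime_int.1 hp
  have hp0 : (p : ℤ) ≠ 0 := by exact_mod_cast hp.ne_zero
  have hp1 : ¬ (p : ℤ) ∣ 1 := fun h => by
    have := Int.le_of_dvd one_pos h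
    omega
  have hp2 : ¬ (p : ℤ) ∣ 2 := fun h => by
    have := Int.le_of_dvd two_pos h
    omega
  have hadz : (a : ℤ) * d = (p : ℤ) ^ m := by exact_mod_cast had
  have had0 : (a : ℤ) * d ≠ 0 := by rw [hadz]; exact pow_ne_zero _ hp0
  have ha0' : (a : ℤ) ≠ 0 := left_ne_zero_of_mul had0
  have hd0' : (d : ℤ) ≠ 0 := right_ne_zero_of_mul had0
  have hpa0 : ¬ (p : ℤ) ∣ a0 := by
    intro h
    have h1 : (p : ℤ) ∣ b0 ^ 2 - D * 1 ^ 2 := by
      rw [← hD, show b0 ^ 2 - (b0 ^ 2 - 4 * a0 * c0) * 1 ^ 2 = a0 * (4 * c0) by ring]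
      exact h.mul_right _
    exact hp1 (jacobiSym.prime_dvd_of_eq_neg_one hJ h1).2
  have hpD : ¬ (p : ℤ) ∣ D := by
    intro h
    have h1 : (p : ℤ) ∣ 0 ^ 2 - D * 1 ^ 2 := by
      rw [show (0 : ℤ) ^ 2 - D * 1 ^ 2 = -D by ring]
      exact h.neg_right
    exact hp1 (jacobiSym.prime_dvd_of_eq_neg_one hJ h1).2
  have hcop : ∀ {x : ℤ}, ¬ (p : ℤ) ∣ x → ∀ k : ℕ, IsCoprime ((p : ℤ) ^ k) x := fun h k =>
    IsCoprime.pow_left ((Prime.coprime_iff_not_dvd hpi).2 h)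
  -- the discriminant
  have hdisc : ((a : ℤ) * d) ^ 2 * ((A4 - A1) ^ 2 + 4 * A2 * A3) = u ^ 2 * D := by
    have k : (2 * a * b * A3 + a * d * (A4 - A1)) ^ 2 -
        4 * ((a : ℤ) ^ 2 * A3) * ((b : ℤ) ^ 2 * A3 + b * d * (A4 - A1) - d ^ 2 * A2) =
        (b0 * u) ^ 2 - 4 * (a0 * u) * (c0 * u) := by rw [e1, e2, e3]
    rw [← hD]
    linear_combination k
  obtain ⟨u1, hu1⟩ : (p : ℤ) ^ m ∣ u := by
    have h1 : ((p : ℤ) ^ m) ^ 2 ∣ u ^ 2 * D := ⟨_, by rw [← hdisc, hadz]⟩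
    have h2 : ((p : ℤ) ^ m) ^ 2 ∣ u ^ 2 := by
      refine IsCoprime.dvd_of_dvd_mul_right ?_ h1
      rw [← pow_mul]
      exact hcop hpD _
    exact (Int.pow_dvd_pow_iff two_ne_zero).1 h2
  rw [← hadz] at hu1
  subst hu1
  have f0 : (A4 - A1) ^ 2 + 4 * A2 * A3 = u1 ^ 2 * D := by
    have h1 : ((a : ℤ) * d) ^ 2 ≠ 0 := pow_ne_zero _ had0
    apply mul_left_cancel₀ h1
    rw [hdisc]; ring
  have f1 : (a : ℤ) * A3 = a0 * d * u1 := by
    apply mul_left_cancel₀ ha0'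
    linear_combination e1
  have f2 : 2 * (b : ℤ) * A3 + d * (A4 - A1) = b0 * d * u1 := by
    apply mul_left_cancel₀ ha0'
    linear_combination e2
  have f3 : -((a : ℤ) * d * A2) = u1 * (a0 * b ^ 2 - b0 * a * b + c0 * a ^ 2) := by
    apply mul_left_cancel₀ hd0'
    linear_combination a * e3 + (b : ℤ) ^ 2 * f1 - (a : ℤ) * b * f2
  have hdvd : (p : ℤ) ^ m ∣ u1 := by
    by_cases hab : p ∣ a ∧ p ∣ b
    · have hpd : ¬ p ∣ d := fun h => hprim ⟨hab.1, hab.2, h⟩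
      have hd1 : d = 1 := by
        have h1 : d ∣ p ^ m := ⟨a, by rw [← had]; ring⟩
        obtain ⟨k, -, hk⟩ := (Nat.dvd_prime_pow hp).1 h1
        rcases Nat.eq_zero_or_pos k with h | h
        · rw [hk, h, pow_zero]
        · exact absurd (hk ▸ dvd_pow_self p h.ne') hpd
      subst hd1
      have h2 : (a : ℤ) = (p : ℤ) ^ m := by simpa using hadz
      have h3 : (p : ℤ) ^ m ∣ a0 * u1 := ⟨A3, by rw [← h2]; linear_combination -f1⟩
      exact (hcop hpa0 m).dvd_of_dvd_mul_left h3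
    · have hf : ¬ (p : ℤ) ∣ a0 * b ^ 2 - b0 * a * b + c0 * a ^ 2 := by
        intro h
        have h1 : (p : ℤ) ∣ (2 * a0 * b - b0 * a) ^ 2 - D * (a : ℤ) ^ 2 := by
          rw [show (2 * a0 * b - b0 * a) ^ 2 - D * (a : ℤ) ^ 2 =
            (a0 * b ^ 2 - b0 * a * b + c0 * a ^ 2) * (4 * a0) by rw [← hD]; ring]
          exact h.mul_right _
        obtain ⟨h2, h3⟩ := jacobiSym.prime_dvd_of_eq_neg_one hJ h1
        have h4 : (p : ℤ) ∣ 2 * (a0 * b) := by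
          have h5 := dvd_add h2 (h3.mul_left b0)
          rwa [show 2 * a0 * (b : ℤ) - b0 * a + b0 * a = 2 * (a0 * b) by ring] at h5
        have h6 := (hpi.dvd_or_dvd ((hpi.dvd_or_dvd h4).resolve_left hp2)).resolve_left hpa0
        exact hab ⟨by exact_mod_cast h3, by exact_mod_cast h6⟩
      have h1 : (p : ℤ) ^ m ∣ u1 * (a0 * b ^ 2 - b0 * a * b + c0 * a ^ 2) :=
        ⟨-A2, by rw [← f3, ← hadz]; ring⟩
      exact (hcop hf m).dvd_of_dvd_mul_right h1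
  have hu0 : u1 = 0 := by
    by_contra hne
    have h1 : (p : ℤ) ^ m ≤ |u1| := by
      have := Int.le_of_dvd (abs_pos.2 hne) ((dvd_abs _ _).2 hdvd)
      exact this
    have h2 : |u1| ≤ u1 ^ 2 := by
      rw [← sq_abs]
      have : 1 ≤ |u1| := Int.one_le_abs hne
      nlinarith
    have h3 : u1 ^ 2 ≤ -(u1 ^ 2 * D) := by
      have : 0 ≤ u1 ^ 2 := sq_nonneg _
      nlinarith
    have h4 : (A4 - A1) ^ 2 + 4 * A2 * A3 = (A1 + A4) ^ 2 - 4 * n := by rw [← hn]; ring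
    have h5 := sq_nonneg (A1 + A4)
    linarith
  subst hu0
  have g1 : A3 = 0 := by
    have : (a : ℤ) * A3 = 0 := by rw [f1]; ring
    exact (mul_eq_zero.1 this).resolve_left ha0'
  subst g1
  have g2 : A4 - A1 = 0 := by
    have : (d : ℤ) * (A4 - A1) = 0 := by linear_combination f2
    exact (mul_eq_zero.1 this).resolve_left hd0'
  have g3 : A2 = 0 := by
    have : ((a : ℤ) * d) * A2 = 0 := by linear_combination -f3
    exact (mul_eq_zero.1 this).resolve_left had0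
  exact ⟨g3, rfl, by linarith⟩

end Pool.Agent.N661.SN
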