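import Mathlib

/-!
Integral matrices which almost fix a point of the upper half plane.
-/

set_option autoImplicit false

open UpperHalfPlane

namespace Pool.Agent.N661.SN

/-- the quadratic polynomial of a vector -/
noncomputable def q (v1 v2 v3 : ℤ) (z : ℂ) : ℂ := (v1 : ℂ) * z ^ 2 + v2 * z + v3

theorem q_im (v1 v2 v3 : ℤ) (z : ℂ) :
    (q v1 v2 v3 z).im = z.im * (v2 + 2 * z.re * v1) := by
  simp [q, pow_two]
  ring

theorem q_re (v1 v2 v3 : ℤ) (z : ℂ) :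
    (q v1 v2 v3 z).re = v3 - v1 * (z.re ^ 2 + z.im ^ 2) + (v2 + 2 * z.re * v1) * z.re := by
  simp [q, pow_two]
  ring

theorem size {v1 v2 v3 : ℤ} {z : ℂ} {R : ℝ} (hy : 0 < z.im) (hyR : z.im ≤ R) (hx : |z.re| ≤ R)
    {s ε : ℝ} (hs : 0 < s) (hε : 0 < ε) (hε' : ε ≤ 1 / 2)
    (hd : -4 * s ^ 2 ≤ (v2 : ℝ) ^ 2 - 4 * v1 * v3) (hq : ‖q v1 v2 v3 z‖ ≤ ε * s * z.im) :
    |(v1 : ℝ)| * z.im ≤ 3 / 2 * s ∧ |(v2 : ℝ) + 2 * z.re * v1| ≤ ε * s ∧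
      |(v3 : ℝ) - v1 * (z.re ^ 2 + z.im ^ 2)| ≤ 2 * R * ε * s := by
  have h1 : |(q v1 v2 v3 z).im| ≤ ε * s * z.im := (Complex.abs_im_le_norm _).trans hq
  have h2 : |(q v1 v2 v3 z).re| ≤ ε * s * z.im := (Complex.abs_re_le_norm _).trans hq
  rw [q_im, abs_mul, abs_of_pos hy] at h1
  have k1 : |(v2 : ℝ) + 2 * z.re * v1| ≤ ε * s := by
    refine le_of_mul_le_mul_left ?_ hy
    linarith
  set κ : ℝ := (v2 : ℝ) + 2 * z.re * v1 with hκ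
  set ρ : ℝ := (q v1 v2 v3 z).re with hρ
  have hρ' := q_re v1 v2 v3 z
  rw [← hρ, ← hκ] at hρ'
  have hR : 0 < R := hy.trans_le hyR
  have k3 : |(v3 : ℝ) - v1 * (z.re ^ 2 + z.im ^ 2)| ≤ 2 * R * ε * s := by
    have e : (v3 : ℝ) - v1 * (z.re ^ 2 + z.im ^ 2) = ρ - κ * z.re := by rw [hρ']; ring
    rw [e]
    calc |ρ - κ * z.re| ≤ |ρ| + |κ * z.re| := abs_sub _ _
      _ ≤ ε * s * R + ε * s * R := by
          refine add_le_add (h2.trans (by gcongr)) ?_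
          rw [abs_mul]
          gcongr
      _ = _ := by ring
  refine ⟨?_, k1, k3⟩
  have e : (v2 : ℝ) ^ 2 - 4 * v1 * v3 = κ ^ 2 - 4 * v1 * ρ - 4 * v1 ^ 2 * z.im ^ 2 := by
    rw [hρ', hκ]; ring
  rw [e] at hd
  set t : ℝ := |(v1 : ℝ)| * z.im with ht
  have ht2 : t ^ 2 = (v1 : ℝ) ^ 2 * z.im ^ 2 := by rw [ht, mul_pow, sq_abs]
  have ht0 : 0 ≤ t := by positivity
  have h3 : -(4 * (v1 : ℝ) * ρ) ≤ 4 * (ε * s * t) := by
    have h4 : |(v1 : ℝ) * ρ| ≤ |(v1 : ℝ)| * (ε * s * z.im) := by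
      rw [abs_mul]; gcongr
    have h5 := neg_abs_le ((v1 : ℝ) * ρ)
    rw [ht]
    nlinarith
  have h4 : κ ^ 2 ≤ (ε * s) ^ 2 := by
    rw [← sq_abs κ]
    gcongr
  have h6 : 4 * t ^ 2 ≤ 4 * s ^ 2 + (ε * s) ^ 2 + 4 * (ε * s * t) := by
    nlinarith
  have h7 : ε * s ≤ 1 / 2 * s := by gcongr
  have h8 : (ε * s) ^ 2 ≤ (1 / 2 * s) ^ 2 := by gcongr
  have h9 : ε * s * t ≤ 1 / 2 * s * t := by gcongr
  by_contra hcon
  rw [not_le] at hcon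
  nlinarith [mul_pos hs hs, mul_lt_mul_of_pos_left hcon hs,
    mul_pos (sub_pos.2 hcon) (sub_pos.2 hcon)]

theorem int_zero {k : ℤ} (h : |(k : ℝ)| < 1) : k = 0 := by
  have : |k| < 1 := by exact_mod_cast h
  exact Int.abs_lt_one_iff.1 this

theorem parallel {z : ℂ} {R : ℝ} (hR : 1 ≤ R) (hy : 0 < z.im) (hyR : z.im ≤ R)
    (hyr : 1 / R ≤ z.im) {ε s s' : ℝ} (hs : 0 < s) (hs' : 0 < s') (hε : 0 < ε)
    (hsm : 6 * R ^ 2 * ε * (s * s') < 1) {v1 v2 v3 w1 w2 w3 : ℤ}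
    (a1 : |(v1 : ℝ)| * z.im ≤ 3 / 2 * s) (a2 : |(v2 : ℝ) + 2 * z.re * v1| ≤ ε * s)
    (a3 : |(v3 : ℝ) - v1 * (z.re ^ 2 + z.im ^ 2)| ≤ 2 * R * ε * s)
    (b1 : |(w1 : ℝ)| * z.im ≤ 3 / 2 * s') (b2 : |(w2 : ℝ) + 2 * z.re * w1| ≤ ε * s')
    (b3 : |(w3 : ℝ) - w1 * (z.re ^ 2 + z.im ^ 2)| ≤ 2 * R * ε * s') :
    v1 * w2 = w1 * v2 ∧ v1 * w3 = w1 * v3 := by
  have hR0 : 0 < R := by linarith
  have inv : ∀ {x t : ℝ}, 0 ≤ x → x * z.im ≤ t → x ≤ R * t := by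
    intro x t hx h
    have h1 : x * (1 / R) ≤ t := (mul_le_mul_of_nonneg_left hyr hx).trans h
    rw [mul_one_div, div_le_iff₀ hR0] at h1
    linarith
  have a1' := inv (abs_nonneg _) a1
  have b1' := inv (abs_nonneg _) b1
  have hss : 0 < s * s' := mul_pos hs hs'
  have hRR : R ≤ R ^ 2 := by nlinarith
  constructor
  · have : v1 * w2 - w1 * v2 = 0 := by
      apply int_zero
      have e : ((v1 * w2 - w1 * v2 : ℤ) : ℝ) =
          v1 * ((w2 : ℝ) + 2 * z.re * w1) - w1 * ((v2 : ℝ) + 2 * z.re * v1) := by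
        push_cast; ring
      rw [e]
      calc _ ≤ |(v1 : ℝ) * ((w2 : ℝ) + 2 * z.re * w1)| + |w1 * ((v2 : ℝ) + 2 * z.re * v1)| :=
            abs_sub _ _
        _ ≤ (R * (3 / 2 * s)) * (ε * s') + (R * (3 / 2 * s')) * (ε * s) := by
            rw [abs_mul, abs_mul]
            gcongr
        _ = 3 * R * ε * (s * s') := by ring
        _ ≤ 6 * R ^ 2 * ε * (s * s') := by
            have : 0 < ε * (s * s') := by positivity
            nlinarith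
        _ < 1 := hsm
    linarith
  · have : v1 * w3 - w1 * v3 = 0 := by
      apply int_zero
      have e : ((v1 * w3 - w1 * v3 : ℤ) : ℝ) =
          v1 * ((w3 : ℝ) - w1 * (z.re ^ 2 + z.im ^ 2)) -
            w1 * ((v3 : ℝ) - v1 * (z.re ^ 2 + z.im ^ 2)) := by
        push_cast; ring
      rw [e]
      calc _ ≤ |(v1 : ℝ) * ((w3 : ℝ) - w1 * (z.re ^ 2 + z.im ^ 2))| +
            |w1 * ((v3 : ℝ) - v1 * (z.re ^ 2 + z.im ^ 2))| :=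
            abs_sub _ _
        _ ≤ (R * (3 / 2 * s)) * (2 * R * ε * s') + (R * (3 / 2 * s')) * (2 * R * ε * s) := by
            rw [abs_mul, abs_mul]
            gcongr
        _ = 6 * R ^ 2 * ε * (s * s') := by ring
        _ < 1 := hsm
    linarith

/-- a short nonzero vector has nonzero leading term and negative discriminant -/
theorem nondeg {z : ℂ} {R : ℝ} (hR : 1 ≤ R) (hy : 0 < z.im) 
    (hyr : 1 / R ≤ z.im) {ε s : ℝ} (hs : 0 < s) (hε : 0 < ε)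
    (hsm : 4 * R * (ε * s) < 1) {v1 v2 v3 : ℤ} (hv : ¬ (v1 = 0 ∧ v2 = 0 ∧ v3 = 0))
    (hq : ‖q v1 v2 v3 z‖ ≤ ε * s * z.im)
    (a2 : |(v2 : ℝ) + 2 * z.re * v1| ≤ ε * s)
    (a3 : |(v3 : ℝ) - v1 * (z.re ^ 2 + z.im ^ 2)| ≤ 2 * R * ε * s) :
    v1 ≠ 0 ∧ v2 ^ 2 - 4 * v1 * v3 < 0 := by
  have hR0 : 0 < R := by linarith
  have hes : 0 < ε * s := by positivity
  have h0 : v1 ≠ 0 := by
    rintro rfl
    apply hv
    refine ⟨rfl, ?_, ?_⟩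
    · apply int_zero
      have : |(v2 : ℝ)| ≤ ε * s := by simpa using a2
      nlinarith
    · apply int_zero
      have : |(v3 : ℝ)| ≤ 2 * R * ε * s := by simpa using a3
      nlinarith
  refine ⟨h0, ?_⟩
  have h2 : |(q v1 v2 v3 z).re| ≤ ε * s * z.im := (Complex.abs_re_le_norm _).trans hq
  set κ : ℝ := (v2 : ℝ) + 2 * z.re * v1 with hκ
  set ρ : ℝ := (q v1 v2 v3 z).re with hρ
  have hρ' := q_re v1 v2 v3 z
  rw [← hρ, ← hκ] at hρ'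
  have e : (v2 : ℝ) ^ 2 - 4 * v1 * v3 = κ ^ 2 - 4 * v1 * ρ - 4 * v1 ^ 2 * z.im ^ 2 := by
    rw [hρ', hκ]; ring
  have hlt : (v2 : ℝ) ^ 2 - 4 * v1 * v3 < 0 := by
    rw [e]
    set t : ℝ := |(v1 : ℝ)| * z.im with ht
    have ht2 : t ^ 2 = (v1 : ℝ) ^ 2 * z.im ^ 2 := by rw [ht, mul_pow, sq_abs]
    have hv1 : (1 : ℝ) ≤ |(v1 : ℝ)| := by exact_mod_cast Int.one_le_abs h0
    have ht1 : 1 / R ≤ t := by
      rw [ht]
      nlinarith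
    have ht3 : 4 * (ε * s) < t := by
      have : 4 * (ε * s) < 1 / R := by
        rw [lt_div_iff₀ hR0]; linarith
      linarith
    have h3 : -(4 * (v1 : ℝ) * ρ) ≤ 4 * (ε * s * t) := by
      have h4 : |(v1 : ℝ) * ρ| ≤ |(v1 : ℝ)| * (ε * s * z.im) := by
        rw [abs_mul]; gcongr
      have h5 := neg_abs_le ((v1 : ℝ) * ρ)
      rw [ht]
      nlinarith
    have h4 : κ ^ 2 ≤ (ε * s) ^ 2 := by
      rw [← sq_abs κ]
      gcongr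
    nlinarith
  exact_mod_cast hlt

theorem bezout3 {v1 v2 v3 : ℤ} (hv : ¬ (v1 = 0 ∧ v2 = 0 ∧ v3 = 0)) :
    ∃ u a b c x y t : ℤ, u ≠ 0 ∧ v1 = u * a ∧ v2 = u * b ∧ v3 = u * c ∧
      a * x + b * y + c * t = 1 := by
  have hg2 : ((Int.gcd v2 v3 : ℕ) : ℤ) = v2 * Int.gcdA v2 v3 + v3 * Int.gcdB v2 v3 :=
    Int.gcd_eq_gcd_ab v2 v3
  set h : ℤ := ((Int.gcd v2 v3 : ℕ) : ℤ) with hh
  have hg1 : ((Int.gcd v1 h : ℕ) : ℤ) = v1 * Int.gcdA v1 h + h * Int.gcdB v1 h :=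
    Int.gcd_eq_gcd_ab v1 h
  set g : ℤ := ((Int.gcd v1 h : ℕ) : ℤ) with hgdef
  have d1 : g ∣ v1 := Int.gcd_dvd_left _ _
  have d0 : g ∣ h := Int.gcd_dvd_right _ _
  have d2 : g ∣ v2 := d0.trans (Int.gcd_dvd_left _ _)
  have d3 : g ∣ v3 := d0.trans (Int.gcd_dvd_right _ _)
  have hg0 : g ≠ 0 := by
    intro h0
    rw [h0] at d1 d2 d3
    exact hv ⟨zero_dvd_iff.1 d1, zero_dvd_iff.1 d2, zero_dvd_iff.1 d3⟩
  obtain ⟨a, ha⟩ := d1
  obtain ⟨b, hb⟩ := d2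
  obtain ⟨c, hc⟩ := d3
  refine ⟨g, a, b, c, Int.gcdA v1 h, Int.gcdA v2 v3 * Int.gcdB v1 h,
    Int.gcdB v2 v3 * Int.gcdB v1 h, hg0, ha, hb, hc, ?_⟩
  apply mul_left_cancel₀ hg0
  have e : g = v1 * Int.gcdA v1 h + v2 * (Int.gcdA v2 v3 * Int.gcdB v1 h) +
      v3 * (Int.gcdB v2 v3 * Int.gcdB v1 h) := by
    calc g = v1 * Int.gcdA v1 h + h * Int.gcdB v1 h := hg1
      _ = v1 * Int.gcdA v1 h + (v2 * Int.gcdA v2 v3 + v3 * Int.gcdB v2 v3) * Int.gcdB v1 h := by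
          rw [← hg2]
      _ = _ := by ring
  generalize Int.gcdA v1 h = X at *
  generalize Int.gcdB v1 h = Y at *
  generalize Int.gcdA v2 v3 = Z at *
  generalize Int.gcdB v2 v3 = W at *
  rw [mul_one]
  conv_rhs => rw [e]
  rw [ha, hb, hc]
  ring

/-- A return within `δ` gives a small value of the quadratic polynomial. -/
theorem near_of_dist {w w' : ℍ} {A B C D : ℤ} {δ : ℝ} (hδ : δ ≤ 1 / 4)
    (hn : 0 < A * D - B * C) (h : (w' : ℂ) * (C * (w : ℂ) + D) = A * (w : ℂ) + B)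
    (hd : dist w' w < δ) :
    ‖q C (D - A) (-B) (w : ℂ)‖ ^ 2 ≤ 8 * δ ^ 2 * ((A * D - B * C : ℤ) : ℝ) * w.im ^ 2 := by
  have hd0 : 0 ≤ dist w' w := dist_nonneg
  have hδ0 : 0 < δ := hd0.trans_lt hd
  have hexp : Real.exp (dist w' w) - 1 ≤ 2 * δ := by
    have h1 := Real.abs_exp_sub_one_le (x := dist w' w) (by rw [abs_of_nonneg hd0]; linarith)
    rw [abs_of_nonneg hd0] at h1
    have := le_abs_self (Real.exp (dist w' w) - 1)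
    linarith
  have hwi := w.im_pos
  have hwi' := w'.im_pos
  -- distances in the plane
  have k1 : dist (w' : ℂ) (w : ℂ) ≤ w.im * (2 * δ) := by
    refine (UpperHalfPlane.dist_coe_le w' w).trans ?_
    gcongr
  have k2 : dist (w : ℂ) (w' : ℂ) ≤ w'.im * (2 * δ) := by
    refine (UpperHalfPlane.dist_coe_le w w').trans ?_
    rw [dist_comm w w']
    gcongr
  have k3 : w'.im ≤ 2 * w.im := by
    have h1 : |((w' : ℂ) - (w : ℂ)).im| ≤ dist (w' : ℂ) (w : ℂ) := by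
      rw [dist_eq_norm]
      exact Complex.abs_im_le_norm _
    have h2 := le_abs_self ((w' : ℂ) - (w : ℂ)).im
    simp only [Complex.sub_im, UpperHalfPlane.coe_im] at h1 h2
    nlinarith
  have e1 : q C (D - A) (-B) (w : ℂ) = ((w : ℂ) - (w' : ℂ)) * (C * (w : ℂ) + D) := by
    rw [q, sub_mul, h]
    push_cast
    ring
  have e2 : ‖(C : ℂ) * (w : ℂ) + D‖ ^ 2 * w'.im = ((A * D - B * C : ℤ) : ℝ) * w.im := by
    have h1 : ((w' : ℂ) * (C * (w : ℂ) + D)) * (starRingEnd ℂ) (C * (w : ℂ) + D) =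
        (A * (w : ℂ) + B) * (starRingEnd ℂ) (C * (w : ℂ) + D) := by rw [h]
    rw [mul_assoc, Complex.mul_conj, Complex.normSq_eq_norm_sq] at h1
    have h2 := congrArg Complex.im h1
    rw [Complex.im_mul_ofReal] at h2
    rw [UpperHalfPlane.coe_im] at h2
    rw [mul_comm, h2]
    simp
    ring
  rw [e1, norm_mul, mul_pow]
  rw [dist_eq_norm] at k2
  have k4 : ‖(w : ℂ) - (w' : ℂ)‖ ^ 2 ≤ (w'.im * (2 * δ)) ^ 2 := by gcongr
  calc ‖(w : ℂ) - (w' : ℂ)‖ ^ 2 * ‖(C : ℂ) * (w : ℂ) + D‖ ^ 2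
      ≤ (w'.im * (2 * δ)) ^ 2 * ‖(C : ℂ) * (w : ℂ) + D‖ ^ 2 := by gcongr
    _ = 4 * δ ^ 2 * w'.im * (‖(C : ℂ) * (w : ℂ) + D‖ ^ 2 * w'.im) := by ring
    _ = 4 * δ ^ 2 * w'.im * (((A * D - B * C : ℤ) : ℝ) * w.im) := by rw [e2]
    _ ≤ 4 * δ ^ 2 * (2 * w.im) * (((A * D - B * C : ℤ) : ℝ) * w.im) := by
        have : (0 : ℝ) < ((A * D - B * C : ℤ) : ℝ) := by exact_mod_cast hn
        gcongr
    _ = _ := by ring

end Pool.Agent.N661.SN
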