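import Pool.Agent.N661.SN.Walk
import Pool.Agent.N661.SN.Inert
import Pool.Agent.N661.SN.Near

/-!
Large values without short Hecke returns.
-/

set_option autoImplicit false

open UpperHalfPlane
open scoped NumberTheorySymbols

namespace Pool.Agent.N661.SN

/-- No nonscalar integral matrix of determinant between `1` and `N` moves `w` by less than `δ`. -/
def NoReturn (N : ℕ) (δ : ℝ) (w : ℍ) : Prop :=
  ∀ A B C D : ℤ, 0 < A * D - B * C → A * D - B * C ≤ N → ¬ (B = 0 ∧ C = 0 ∧ A = D) →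
    ∀ w' : ℍ, (w' : ℂ) * (C * (w : ℂ) + D) = A * (w : ℂ) + B → δ ≤ dist w' w

theorem near_le {w w' : ℍ} {A B C D : ℤ} {δ ε s : ℝ} (hδ : δ ≤ 1 / 4) (hε : 0 < ε)
    (hδε : 8 * δ ^ 2 ≤ ε ^ 2) (hs : 0 ≤ s)
    (hn : 0 < A * D - B * C) (hns : ((A * D - B * C : ℤ) : ℝ) ≤ s ^ 2)
    (h : (w' : ℂ) * (C * (w : ℂ) + D) = A * (w : ℂ) + B)
    (hd : dist w' w < δ) :
    ‖q C (D - A) (-B) (w : ℂ)‖ ≤ ε * s * w.im := by
  have hwi := w.im_pos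
  refine le_of_sq_le_sq ?_ (by positivity)
  refine (near_of_dist hδ hn h hd).trans ?_
  have h0 : (0 : ℝ) < ((A * D - B * C : ℤ) : ℝ) := by exact_mod_cast hn
  calc 8 * δ ^ 2 * ((A * D - B * C : ℤ) : ℝ) * w.im ^ 2 ≤ ε ^ 2 * s ^ 2 * w.im ^ 2 := by
        gcongr
    _ = _ := by ring

theorem generic {U : ℂ → ℂ} (hU : HeckeRel U) {R : ℝ} (hR : 1 ≤ R) {z : ℍ}
    (hzR : ‖(z : ℂ)‖ ≤ R) (hzr : 1 / R ≤ z.im) {N : ℕ} (hN : 1 ≤ N) :
    ∃ (w : ℍ) (a b d : ℕ), 0 < a ∧ 0 < d ∧ b < d ∧ a * d ≤ 2 ^ 10 * N ^ 3 ∧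
      (w : ℂ) = ((a : ℂ) * z + b) / d ∧ ‖U z‖ ≤ 2 ^ 30 * (N : ℝ) ^ 9 * ‖U w‖ ∧
      NoReturn N (1 / (2 ^ 15 * R ^ 2 * (N : ℝ) ^ 4)) w := by
  have hN1 : (1 : ℝ) ≤ N := by exact_mod_cast hN
  have hR0 : 0 < R := by linarith
  have hN0 : (0 : ℝ) < N := by linarith
  have hRR : 1 ≤ R ^ 2 := one_le_pow₀ hR
  have hN4 : 1 ≤ (N : ℝ) ^ 4 := one_le_pow₀ hN1
  have hNN4 : (N : ℝ) ≤ (N : ℝ) ^ 4 := le_self_pow₀ hN1 (by norm_num)
  have hRR' : R ≤ R ^ 2 := le_self_pow₀ hR (by norm_num)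
  set ε : ℝ := 1 / (2 ^ 13 * R ^ 2 * (N : ℝ) ^ 4) with hε
  set δ : ℝ := 1 / (2 ^ 15 * R ^ 2 * (N : ℝ) ^ 4) with hδ
  have hM : (0 : ℝ) < R ^ 2 * (N : ℝ) ^ 4 := by positivity
  have hM1 : (1 : ℝ) ≤ R ^ 2 * (N : ℝ) ^ 4 := by nlinarith
  have hε0 : 0 < ε := by positivity
  have hδ0 : 0 < δ := by positivity
  have hδe : δ = ε / 4 := by
    rw [hδ, hε]
    field_simp
    norm_num
  have hε1 : ε ≤ 1 / 2 := by
    rw [hε, div_le_div_iff₀ (by positivity) (by norm_num)]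
    nlinarith
  have hδ1 : δ ≤ 1 / 4 := by rw [hδe]; linarith
  have hδε : 8 * δ ^ 2 ≤ ε ^ 2 := by rw [hδe]; nlinarith [sq_nonneg ε]
  have hεM : ε * (R ^ 2 * (N : ℝ) ^ 4) = 1 / 2 ^ 13 := by
    rw [hε]
    field_simp
  set s : ℝ := Real.sqrt N with hs
  have hs0 : 0 < s := Real.sqrt_pos.2 hN0
  have hs2 : s ^ 2 = N := Real.sq_sqrt hN0.le
  have hsN : s ≤ N := by nlinarith
  have hzi := z.im_pos
  have hziR : z.im ≤ R := by
    have := Complex.abs_im_le_norm (z : ℂ)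
    rw [UpperHalfPlane.coe_im] at this
    exact (le_abs_self _).trans (this.trans hzR)
  have hzx : |(z : ℂ).re| ≤ R := (Complex.abs_re_le_norm (z : ℂ)).trans hzR
  by_cases hret : ∃ A B C D : ℤ, 0 < A * D - B * C ∧ A * D - B * C ≤ N ∧
      ¬ (B = 0 ∧ C = 0 ∧ A = D) ∧ ‖q C (D - A) (-B) (z : ℂ)‖ ≤ ε * s * z.im
  swap
  · refine ⟨z, 1, 0, 1, one_pos, one_pos, one_pos, ?_, by simp, ?_, ?_⟩
    · have : 1 ≤ N ^ 3 := Nat.one_le_pow _ _ hN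
      omega
    · have h9 : 1 ≤ (N : ℝ) ^ 9 := one_le_pow₀ hN1
      have : 0 ≤ ‖U z‖ := norm_nonneg _
      nlinarith
    · intro A B C D h1 h2 h3 w' hw'
      by_contra hcon
      rw [not_le] at hcon
      apply hret
      refine ⟨A, B, C, D, h1, h2, h3, ?_⟩
      refine near_le hδ1 hε0 hδε hs0.le h1 ?_ hw' hcon
      rw [hs2]
      exact_mod_cast h2
  obtain ⟨A0, B0, C0, D0, hdet0, hdetN, hns0, hq0⟩ := hret
  obtain ⟨u0, a0, b0, c0, x, y, t, hu0, hCa, hDb, hBc, hbez⟩ :=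
    bezout3 (v1 := C0) (v2 := D0 - A0) (v3 := -B0) (by
      rintro ⟨h1, h2, h3⟩
      exact hns0 ⟨by linarith, h1, by linarith⟩)
  have hu1 : (1 : ℤ) ≤ |u0| := Int.one_le_abs hu0
  have hu2 : (1 : ℤ) ≤ u0 ^ 2 := by rw [← sq_abs]; nlinarith
  have hqv : ‖q a0 b0 c0 (z : ℂ)‖ ≤ ε * s * z.im := by
    have e : q C0 (D0 - A0) (-B0) (z : ℂ) = (u0 : ℂ) * q a0 b0 c0 (z : ℂ) := by
      rw [hCa, hDb, hBc, q, q]
      push_cast
      ring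
    rw [e, norm_mul] at hq0
    have h1 : (1 : ℝ) ≤ ‖(u0 : ℂ)‖ := by
      rw [Complex.norm_intCast]
      exact_mod_cast hu1
    have h2 : 0 ≤ ‖q a0 b0 c0 (z : ℂ)‖ := norm_nonneg _
    nlinarith
  have hdisc0 : (-4 * (N : ℤ)) ≤ b0 ^ 2 - 4 * a0 * c0 := by
    have e : u0 ^ 2 * (b0 ^ 2 - 4 * a0 * c0) = (D0 - A0) ^ 2 + 4 * B0 * C0 := by
      linear_combination (-(u0 * b0) - (D0 - A0)) * hDb + 4 * (u0 * c0) * hCa + 4 * C0 * hBc
    have h1 : -4 * (N : ℤ) ≤ (D0 - A0) ^ 2 + 4 * B0 * C0 := by nlinarith [sq_nonneg (A0 + D0)]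
    rcases le_or_gt 0 (b0 ^ 2 - 4 * a0 * c0) with h | h
    · have : (0 : ℤ) ≤ N := Int.natCast_nonneg _
      linarith
    · nlinarith
  have hdr : -4 * s ^ 2 ≤ (b0 : ℝ) ^ 2 - 4 * a0 * c0 := by
    rw [hs2]; exact_mod_cast hdisc0
  obtain ⟨p1, p2, p3⟩ := size (z := (z : ℂ)) (R := R) hzi hziR hzx hs0 hε0 hε1 hdr hqv
  obtain ⟨ha0, hneg⟩ := nondeg (z := (z : ℂ)) hR hzi hzr hs0 hε0 (by
      have h1 : 4 * R * (ε * s) ≤ 4 * (ε * (R ^ 2 * (N : ℝ) ^ 4)) := by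
        calc 4 * R * (ε * s) ≤ 4 * R ^ 2 * (ε * (N : ℝ) ^ 4) := by
              gcongr
              exact hsN.trans hNN4
          _ = _ := by ring
      rw [hεM] at h1
      linarith) (by
      rintro ⟨h1, h2, h3⟩
      rw [h1, h2, h3] at hbez
      simp at hbez) hqv p2 p3
  -- the inert prime
  obtain ⟨D, hD⟩ : ∃ D : ℕ, (D : ℤ) = -(b0 ^ 2 - 4 * a0 * c0) :=
    ⟨(-(b0 ^ 2 - 4 * a0 * c0)).toNat, Int.toNat_of_nonneg (by linarith)⟩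
  have hDpos : 0 < D := by
    have : (0 : ℤ) < D := by rw [hD]; linarith
    exact_mod_cast this
  have hDN : D ≤ 4 * N := by
    have : (D : ℤ) ≤ 4 * N := by rw [hD]; linarith
    exact_mod_cast this
  obtain ⟨p, hp, hp3, hp4, hJ⟩ := exists_inert hDpos
  rw [hD, neg_neg] at hJ
  obtain ⟨a, b, d, m, ha, hd, hbd, hprim, had, hm, hle⟩ :=
    walk hU hp hzi (Nat.log p (4 * N) + 1) (by omega)
  have hpJ : 4 * N < p ^ (Nat.log p (4 * N) + 1) := Nat.lt_pow_succ_log_self hp.one_lt _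
  have hpm : 4 * N < p ^ m := by
    rcases hm with h | h
    · rw [h]; exact hpJ
    · rw [h]
      exact hpJ.trans_le (Nat.pow_le_pow_right hp.pos (by omega))
  have hpm2 : p ^ m ≤ 2 ^ 10 * N ^ 3 := by
    have h1 : p ^ m ≤ p ^ (Nat.log p (4 * N) + 1 + 1) :=
      Nat.pow_le_pow_right hp.pos (by omega)
    have h2 : p ^ (Nat.log p (4 * N)) ≤ 4 * N := Nat.pow_log_le_self p (by omega)
    have h3 : p ≤ 16 * N := by omega
    calc p ^ m ≤ p ^ (Nat.log p (4 * N)) * (p * p) := by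
          rw [pow_succ, pow_succ, mul_assoc] at h1
          exact h1
      _ ≤ (4 * N) * ((16 * N) * (16 * N)) := by gcongr
      _ = 2 ^ 10 * N ^ 3 := by ring
  have hdr0 : (0 : ℝ) < d := by exact_mod_cast hd
  have har0 : (0 : ℝ) < a := by exact_mod_cast ha
  have him : (((a : ℂ) * z + b) / d).im = a * z.im / d := by
    rw [show ((d : ℕ) : ℂ) = ((d : ℝ) : ℂ) by norm_cast, Complex.div_ofReal_im]
    simp
  have hwpos : 0 < (((a : ℂ) * z + b) / d).im := by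
    rw [him]
    positivity
  refine ⟨⟨((a : ℂ) * z + b) / d, hwpos⟩, a, b, d, ha, hd, hbd, had ▸ hpm2, rfl, ?_, ?_⟩
  · refine hle.trans ?_
    have h1 : (2 * ((p : ℝ) + 1)) ^ m ≤ 2 ^ 30 * (N : ℝ) ^ 9 := by
      have hp3' : (3 : ℝ) ≤ p := by exact_mod_cast hp3
      have h2 : 2 * ((p : ℝ) + 1) ≤ (p : ℝ) ^ 3 := by
        have : (9 : ℝ) ≤ (p : ℝ) ^ 2 := by nlinarith
        nlinarith
      have h3 : ((p : ℝ)) ^ m ≤ 2 ^ 10 * (N : ℝ) ^ 3 := by exact_mod_cast hpm2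
      calc (2 * ((p : ℝ) + 1)) ^ m ≤ ((p : ℝ) ^ 3) ^ m := by gcongr
        _ = ((p : ℝ) ^ m) ^ 3 := by ring
        _ ≤ (2 ^ 10 * (N : ℝ) ^ 3) ^ 3 := by gcongr
        _ = _ := by ring
    exact mul_le_mul_of_nonneg_right h1 (norm_nonneg _)
  · intro A1 A2 A3 A4 hn hnN hns w' hw'
    by_contra hcon
    rw [not_le] at hcon
    have hnpos : (0 : ℝ) < ((A1 * A4 - A2 * A3 : ℤ) : ℝ) := by exact_mod_cast hn
    set n : ℝ := ((A1 * A4 - A2 * A3 : ℤ) : ℝ) with hnr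
    have hnN' : n ≤ N := by rw [hnr]; exact_mod_cast hnN
    set s1 : ℝ := Real.sqrt n with hs1
    have hs10 : 0 < s1 := Real.sqrt_pos.2 hnpos
    have hs12 : s1 ^ 2 = n := Real.sq_sqrt hnpos.le
    have hs1s : s1 ≤ s := Real.sqrt_le_sqrt hnN'
    have hqw := near_le hδ1 hε0 hδε hs10.le hn (by rw [hs12]) hw' hcon
    change ‖q A3 (A4 - A1) (-A2) (((a : ℂ) * z + b) / d)‖ ≤
      ε * s1 * (((a : ℂ) * z + b) / d).im at hqw
    rw [him] at hqw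
    have hdc : (d : ℂ) ≠ 0 := by exact_mod_cast hd.ne'
    have eW : q ((a : ℤ) ^ 2 * A3) (2 * a * b * A3 + a * d * (A4 - A1))
        ((b : ℤ) ^ 2 * A3 + b * d * (A4 - A1) - d ^ 2 * A2) (z : ℂ) =
        (d : ℂ) ^ 2 * q A3 (A4 - A1) (-A2) (((a : ℂ) * z + b) / d) := by
      rw [q, q]
      push_cast
      field_simp
      ring
    have had0 : (0 : ℝ) < (a : ℝ) * d := by positivity
    have hqW : ‖q ((a : ℤ) ^ 2 * A3) (2 * a * b * A3 + a * d * (A4 - A1))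
        ((b : ℤ) ^ 2 * A3 + b * d * (A4 - A1) - d ^ 2 * A2) (z : ℂ)‖ ≤
        ε * (s1 * (a * d)) * z.im := by
      rw [eW, norm_mul, norm_pow, Complex.norm_natCast]
      calc (d : ℝ) ^ 2 * ‖q A3 (A4 - A1) (-A2) (((a : ℂ) * z + b) / d)‖ ≤
            (d : ℝ) ^ 2 * (ε * s1 * (a * z.im / d)) := by gcongr
        _ = _ := by field_simp
    have hdW : -4 * (s1 * (a * d)) ^ 2 ≤
        ((2 * a * b * A3 + a * d * (A4 - A1) : ℤ) : ℝ) ^ 2 -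
          4 * (((a : ℤ) ^ 2 * A3 : ℤ) : ℝ) *
            (((b : ℤ) ^ 2 * A3 + b * d * (A4 - A1) - d ^ 2 * A2 : ℤ) : ℝ) := by
      rw [mul_pow, hs12, hnr]
      have e : ((2 * a * b * A3 + a * d * (A4 - A1) : ℤ) : ℝ) ^ 2 -
          4 * (((a : ℤ) ^ 2 * A3 : ℤ) : ℝ) *
            (((b : ℤ) ^ 2 * A3 + b * d * (A4 - A1) - d ^ 2 * A2 : ℤ) : ℝ) =
          -4 * (((A1 * A4 - A2 * A3 : ℤ) : ℝ) * ((a : ℝ) * d) ^ 2) +
            ((a : ℝ) * d) ^ 2 * ((A1 : ℝ) + A4) ^ 2 := by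
        push_cast
        ring
      rw [e]
      have : 0 ≤ ((a : ℝ) * d) ^ 2 * ((A1 : ℝ) + A4) ^ 2 := by positivity
      linarith
    obtain ⟨r1, r2, r3⟩ := size (z := (z : ℂ)) (R := R) hzi hziR hzx
      (show 0 < s1 * (a * d) by positivity) hε0 hε1 hdW hqW
    have hadN : (a : ℝ) * d ≤ 2 ^ 10 * (N : ℝ) ^ 3 := by
      have : a * d ≤ 2 ^ 10 * N ^ 3 := had ▸ hpm2
      exact_mod_cast this
    obtain ⟨g1, g2⟩ := parallel (z := (z : ℂ)) hR hzi hziR hzr hs0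
      (show 0 < s1 * (a * d) by positivity) hε0 (by
        have h1 : s * (s1 * (a * d)) ≤ 2 ^ 10 * (N : ℝ) ^ 4 := by
          calc s * (s1 * (a * d)) ≤ s * (s * (2 ^ 10 * (N : ℝ) ^ 3)) := by gcongr
            _ = s ^ 2 * (2 ^ 10 * (N : ℝ) ^ 3) := by ring
            _ = _ := by rw [hs2]; ring
        calc 6 * R ^ 2 * ε * (s * (s1 * (a * d))) ≤ 6 * R ^ 2 * ε * (2 ^ 10 * (N : ℝ) ^ 4) := by
              gcongr
          _ = 6 * 2 ^ 10 * (ε * (R ^ 2 * (N : ℝ) ^ 4)) := by ring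
          _ < 1 := by rw [hεM]; norm_num) p1 p2 p3 r1 r2 r3
    set W1 : ℤ := (a : ℤ) ^ 2 * A3 with hW1
    set W2 : ℤ := 2 * a * b * A3 + a * d * (A4 - A1) with hW2
    set W3 : ℤ := (b : ℤ) ^ 2 * A3 + b * d * (A4 - A1) - d ^ 2 * A2 with hW3
    have f1 : W1 = a0 * (W1 * x + W2 * y + W3 * t) := by
      linear_combination (-W1) * hbez - y * g1 - t * g2
    have f2 : W2 = b0 * (W1 * x + W2 * y + W3 * t) := by
      apply mul_left_cancel₀ ha0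
      linear_combination g1 + b0 * f1
    have f3 : W3 = c0 * (W1 * x + W2 * y + W3 * t) := by
      apply mul_left_cancel₀ ha0
      linear_combination g2 + c0 * f1
    have hbig : 4 * (A1 * A4 - A2 * A3) < (p : ℤ) ^ m := by
      have h1 : (4 * (N : ℤ)) < (p : ℤ) ^ m := by exact_mod_cast hpm
      linarith
    obtain ⟨i1, i2, i3⟩ := arq hp hp3 rfl hneg hJ had hprim rfl hbig f1 f2 f3
    exact hns ⟨i1, i2, i3⟩

end Pool.Agent.N661.SN
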