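import Mathlib

/-!
The values of a Hecke eigenfunction at a point and at its Hecke neighbours.
-/

set_option autoImplicit false

open Finset

namespace Pool.Agent.N661.SN

/-- the relations of a function of period one which is an eigenfunction of all Hecke operators -/
def HeckeRel (U : ℂ → ℂ) : Prop :=
  (∀ z : ℂ, 0 < z.im → U (z + 1) = U z) ∧
  (∀ n : ℕ, 1 ≤ n → ∃ c : ℂ, ∀ z : ℂ, 0 < z.im →
    ∑ d ∈ n.divisors, ∑ b ∈ Finset.range d,
        U ((((n / d : ℕ) : ℂ) * z + (b : ℂ)) / (d : ℂ)) = c * U z)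

/-- the upper triangular primitive matrices `(a, b; 0, d)` of determinant `p` or `p²` -/
def Prim (p a b d : ℕ) : Prop :=
  0 < a ∧ 0 < d ∧ (a * d = p ∨ a * d = p ^ 2) ∧ ¬ (p ∣ a ∧ p ∣ b ∧ p ∣ d) ∧ b < d

theorem prim_p {p : ℕ} (hp : p.Prime) : Prim p p 0 1 :=
  ⟨hp.pos, one_pos, Or.inl (mul_one p), fun h => hp.one_lt.ne' (Nat.dvd_one.1 h.2.2), one_pos⟩

theorem prim_1 {p b : ℕ} (hp : p.Prime) (hb : b < p) : Prim p 1 b p :=
  ⟨one_pos, hp.pos, Or.inl (one_mul p), fun h => hp.one_lt.ne' (Nat.dvd_one.1 h.1), hb⟩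

theorem prim_pp {p : ℕ} (hp : p.Prime) : Prim p (p ^ 2) 0 1 :=
  ⟨by have := hp.pos; positivity, one_pos, Or.inr (mul_one _),
    fun h => hp.one_lt.ne' (Nat.dvd_one.1 h.2.2), one_pos⟩

theorem prim_mid {p b : ℕ} (hp : p.Prime) (hb : b < p) (hb0 : b ≠ 0) : Prim p p b p :=
  ⟨hp.pos, hp.pos, Or.inr (by ring),
    fun h => absurd (Nat.le_of_dvd (Nat.pos_of_ne_zero hb0) h.2.1) (by omega), hb⟩

theorem prim_low {p b : ℕ} (hp : p.Prime) (hb : b < p ^ 2) : Prim p 1 b (p ^ 2) :=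
  ⟨one_pos, by have := hp.pos; positivity, Or.inr (one_mul _),
    fun h => hp.one_lt.ne' (Nat.dvd_one.1 h.1), hb⟩

theorem nsum {s : Finset ℕ} {f : ℕ → ℂ} {e : ℝ} (h : ∀ b ∈ s, ‖f b‖ ≤ e) :
    ‖∑ b ∈ s, f b‖ ≤ s.card * e :=
  (norm_sum_le_of_le s h).trans (by rw [sum_const, nsmul_eq_mul])

theorem hecke_nbr {U : ℂ → ℂ} (hU : HeckeRel U) {p : ℕ} (hp : p.Prime) {z : ℂ} (hz : 0 < z.im) :
    ∃ a b d : ℕ, Prim p a b d ∧
      ‖U z‖ ≤ ((p : ℝ) + 2) * ‖U (((a : ℂ) * z + (b : ℂ)) / (d : ℂ))‖ := by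
  obtain ⟨hper, hH⟩ := hU
  by_contra hcon
  have hcon' : ∀ a b d : ℕ, Prim p a b d →
      ‖U (((a : ℂ) * z + (b : ℂ)) / (d : ℂ))‖ < ‖U z‖ / ((p : ℝ) + 2) := by
    intro a b d h
    rw [lt_div_iff₀ (by positivity), mul_comm]
    by_contra h1
    exact hcon ⟨a, b, d, h, not_lt.1 h1⟩
  have hp0 : (0 : ℝ) < p := by exact_mod_cast hp.pos
  have hpc : (p : ℂ) ≠ 0 := by exact_mod_cast hp.ne_zero
  set ε := ‖U z‖ / ((p : ℝ) + 2) with hε
  have hε0 : 0 < ε := lt_of_le_of_lt (norm_nonneg _) (hcon' _ _ _ (prim_p hp))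
  have hUz : ‖U z‖ = ((p : ℝ) + 2) * ε := by
    rw [hε]; field_simp
  obtain ⟨c, hc⟩ := hH p hp.one_le
  have hV : ∀ w : ℂ, 0 < w.im →
      U ((p : ℂ) * w) + ∑ b ∈ range p, U ((w + (b : ℂ)) / (p : ℂ)) = c * U w := by
    intro w hw
    have h := hc w hw
    rw [Nat.Prime.divisors hp, Finset.sum_pair hp.one_lt.ne] at h
    rw [Nat.div_self hp.pos] at h
    simpa using h
  have hperN : ∀ (n : ℕ) (w : ℂ), 0 < w.im → U (w + n) = U w := by
    intro n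
    induction n with
    | zero => intro w _; simp
    | succ n ih =>
      intro w hw
      rw [Nat.cast_succ, ← add_assoc, hper _ (by simpa using hw), ih w hw]
  have im_div : ∀ (w : ℂ), 0 < w.im → 0 < (w / (p : ℂ)).im := by
    intro w hw
    have : (w / (p : ℂ)).im = w.im / p := by
      rw [show (p : ℂ) = ((p : ℝ) : ℂ) by norm_cast, Complex.div_ofReal_im]
    rw [this]; positivity
  have h0 := hV z hz
  have h1 := hV ((p : ℂ) * z) (by
    have : ((p : ℂ) * z).im = p * z.im := by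
      simp [Complex.mul_im]
    rw [this]; positivity)
  have h2 : ∀ b ∈ range p, c * U ((z + (b : ℂ)) / (p : ℂ)) =
      U z + ∑ b' ∈ range p, U ((z + ((b + p * b' : ℕ) : ℂ)) / ((p ^ 2 : ℕ) : ℂ)) := by
    intro b _
    rw [← hV ((z + (b : ℂ)) / (p : ℂ)) (im_div _ (by simpa using hz))]
    rw [mul_div_cancel₀ _ hpc, hperN b z hz]
    congr 1
    refine sum_congr rfl fun b' _ => ?_
    congr 1
    push_cast
    field_simp
    ring
  have h3 : ∑ b ∈ range p, U (((p : ℂ) * z + (b : ℂ)) / (p : ℂ)) =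
      U z + ∑ b ∈ (range p).erase 0, U (((p : ℂ) * z + (b : ℂ)) / (p : ℂ)) := by
    rw [← Finset.add_sum_erase _ _ (mem_range.2 hp.pos)]
    congr 2
    simp [hpc]
  have hid : (c ^ 2 - ((p : ℂ) + 1)) * U z = U (((p ^ 2 : ℕ) : ℂ) * z) +
      ∑ b ∈ (range p).erase 0, U (((p : ℂ) * z + (b : ℂ)) / (p : ℂ)) +
      ∑ b ∈ range p, ∑ b' ∈ range p, U ((z + ((b + p * b' : ℕ) : ℂ)) / ((p ^ 2 : ℕ) : ℂ)) := by
    have e1 : c ^ 2 * U z = c * U ((p : ℂ) * z) +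
        ∑ b ∈ range p, c * U ((z + (b : ℂ)) / (p : ℂ)) := by
      rw [← mul_sum, ← mul_add, h0]; ring
    rw [sum_congr rfl h2, sum_add_distrib, sum_const, card_range, nsmul_eq_mul, ← h1, h3] at e1
    rw [sub_mul, e1, show (p : ℂ) * ((p : ℂ) * z) = ((p ^ 2 : ℕ) : ℂ) * z by push_cast; ring]
    ring
  have n0 : ‖c‖ * ‖U z‖ ≤ ((p : ℝ) + 1) * ε := by
    rw [← norm_mul, ← h0]
    refine (norm_add_le _ _).trans ?_
    have a1 : ‖U ((p : ℂ) * z)‖ ≤ ε := by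
      have := (hcon' _ _ _ (prim_p hp)).le
      simpa using this
    have a2 : ‖∑ b ∈ range p, U ((z + (b : ℂ)) / (p : ℂ))‖ ≤ p * ε := by
      refine (nsum (e := ε) fun b hb => ?_).trans (by rw [card_range])
      have := (hcon' _ _ _ (prim_1 hp (mem_range.1 hb))).le
      simpa using this
    linarith
  have n1 : ‖c ^ 2 - ((p : ℂ) + 1)‖ * ‖U z‖ ≤ ((p : ℝ) ^ 2 + p) * ε := by
    rw [← norm_mul, hid]
    refine (norm_add_le _ _).trans ?_
    have a1 : ‖U (((p ^ 2 : ℕ) : ℂ) * z)‖ ≤ ε := by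
      have := (hcon' _ _ _ (prim_pp hp)).le
      simpa using this
    have a2 : ‖∑ b ∈ (range p).erase 0, U (((p : ℂ) * z + (b : ℂ)) / (p : ℂ))‖ ≤
        ((p : ℝ) - 1) * ε := by
      refine (nsum (e := ε) fun b hb => ?_).trans ?_
      · obtain ⟨hb0, hb1⟩ := mem_erase.1 hb
        exact (hcon' _ _ _ (prim_mid hp (mem_range.1 hb1) hb0)).le
      · rw [card_erase_of_mem (mem_range.2 hp.pos), card_range, Nat.cast_sub hp.one_le,
          Nat.cast_one]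
    have a3 : ‖∑ b ∈ range p, ∑ b' ∈ range p,
        U ((z + ((b + p * b' : ℕ) : ℂ)) / ((p ^ 2 : ℕ) : ℂ))‖ ≤ (p : ℝ) * (p * ε) := by
      refine (nsum (e := p * ε) fun b hb => ?_).trans (by rw [card_range])
      refine (nsum (e := ε) fun b' hb' => ?_).trans (by rw [card_range])
      have hlt : b + p * b' < p ^ 2 := by
        have h1 := mem_range.1 hb
        have h2 := mem_range.1 hb'
        calc b + p * b' < p + p * b' := by omega
          _ = p * (b' + 1) := by ring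
          _ ≤ p * p := Nat.mul_le_mul_left _ (by omega)
          _ = p ^ 2 := by ring
      have := (hcon' _ _ _ (prim_low hp hlt)).le
      simpa using this
    have a4 := norm_add_le (U (((p ^ 2 : ℕ) : ℂ) * z))
      (∑ b ∈ (range p).erase 0, U (((p : ℂ) * z + (b : ℂ)) / (p : ℂ)))
    nlinarith
  rw [hUz] at n0 n1
  have m0 : ‖c‖ * ((p : ℝ) + 2) ≤ (p : ℝ) + 1 := by
    have : ‖c‖ * ((p : ℝ) + 2) * ε ≤ ((p : ℝ) + 1) * ε := by linarith
    exact le_of_mul_le_mul_right this hε0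
  have m1 : ‖c ^ 2 - ((p : ℂ) + 1)‖ * ((p : ℝ) + 2) ≤ (p : ℝ) ^ 2 + p := by
    have : ‖c ^ 2 - ((p : ℂ) + 1)‖ * ((p : ℝ) + 2) * ε ≤ ((p : ℝ) ^ 2 + p) * ε := by linarith
    exact le_of_mul_le_mul_right this hε0
  have m2 : (p : ℝ) + 1 ≤ ‖c‖ ^ 2 + ‖c ^ 2 - ((p : ℂ) + 1)‖ := by
    have h := norm_sub_le (c ^ 2) (c ^ 2 - ((p : ℂ) + 1))
    rw [show c ^ 2 - (c ^ 2 - ((p : ℂ) + 1)) = (((p : ℝ) + 1 : ℝ) : ℂ) by push_cast; ring,
      Complex.norm_real, Real.norm_of_nonneg (by positivity), norm_pow] at h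
    exact h
  have m3 : ‖c‖ ^ 2 * ((p : ℝ) + 2) ^ 2 ≤ ((p : ℝ) + 1) ^ 2 := by
    rw [← mul_pow]
    exact pow_le_pow_left₀ (by positivity) m0 2
  have m4 : ‖c ^ 2 - ((p : ℂ) + 1)‖ * ((p : ℝ) + 2) ^ 2 ≤ ((p : ℝ) ^ 2 + p) * ((p : ℝ) + 2) := by
    rw [sq ((p : ℝ) + 2), ← mul_assoc]
    exact mul_le_mul_of_nonneg_right m1 (by positivity)
  have m5 : ((p : ℝ) + 1) * ((p : ℝ) + 2) ^ 2 ≤
      (‖c‖ ^ 2 + ‖c ^ 2 - ((p : ℂ) + 1)‖) * ((p : ℝ) + 2) ^ 2 :=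
    mul_le_mul_of_nonneg_right m2 (by positivity)
  nlinarith

end Pool.Agent.N661.SN
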