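import Pool.Agent.N661.SN.Arith
import Pool.Agent.N661.SN.Hecke

/-!
Separated Hecke neighbours.
-/

set_option autoImplicit false

open Set Filter Topology UpperHalfPlane
open scoped MatrixGroups

namespace Pool.Agent.N661.SN

/-- Hecke neighbours of different orders are not equivalent -/
theorem ar {z : ℂ} {p : ℕ} (hp : p.Prime) (hg : Good z p) {a b d : ℕ} (h : Prim p a b d)
    {a' b' d' : ℕ} (hpa : ¬ p ∣ a') (hpd : ¬ p ∣ d') (hd' : 0 < d') {A B C D : ℤ}
    (hdet : A * D - B * C = 1)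
    (hden : (C : ℂ) * (((a : ℂ) * z + b) / d) + D ≠ 0) :
    ((A : ℂ) * (((a : ℂ) * z + b) / d) + B) / ((C : ℂ) * (((a : ℂ) * z + b) / d) + D) ≠
      ((a' : ℂ) * z + b') / d' := by
  intro heq
  obtain ⟨ha, hd, had, hprim, -⟩ := h
  have hdc : (d : ℂ) ≠ 0 := by exact_mod_cast hd.ne'
  have hdc' : (d' : ℂ) ≠ 0 := by exact_mod_cast hd'.ne'
  rw [div_eq_div_iff hden hdc'] at heq
  have hpi : Prime (p : ℤ) := Nat.prime_iff_prime_int.1 hp
  have hfix : (((a' * (C * a) : ℤ) : ℂ)) * z ^ 2 +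
      (((a' * (C * b + D * d) : ℤ) : ℂ) - ((d' * (A * a) - b' * (C * a) : ℤ) : ℂ)) * z -
      ((d' * (A * b + B * d) - b' * (C * b + D * d) : ℤ) : ℂ) = 0 := by
    have h1 : ((A : ℂ) * (((a : ℂ) * z + b) / d) + B) * d' * d -
        ((a' : ℂ) * z + b') * ((C : ℂ) * (((a : ℂ) * z + b) / d) + D) * d = 0 := by
      rw [heq]; ring
    have h2 : ((A : ℂ) * (((a : ℂ) * z + b) / d) + B) * d' * d =
        d' * (A * (a * z + b) + B * d) := by
      field_simp
    have h3 : ((a' : ℂ) * z + b') * ((C : ℂ) * (((a : ℂ) * z + b) / d) + D) * d =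
        (a' * z + b') * (C * (a * z + b) + D * d) := by
      field_simp
    rw [h2, h3] at h1
    push_cast
    linear_combination -h1
  have hpd2 : (p : ℤ) ∣ (a : ℤ) * d := by
    have : p ∣ a * d := by
      rcases had with h | h
      · rw [h]
      · rw [h]; exact dvd_pow_self p two_ne_zero
    exact_mod_cast this
  obtain ⟨k1, k2, k3, k4⟩ := hg _ _ _ _ hfix (by
    have : ((d' : ℤ) * (A * a) - b' * (C * a)) * (a' * (C * b + D * d)) -
        (d' * (A * b + B * d) - b' * (C * b + D * d)) * (a' * (C * a)) =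
        (a' * d') * (a * d) := by
      linear_combination (a' * d' * a * d : ℤ) * hdet
    rw [this]
    exact hpd2.mul_left _)
  have hpa' : ¬ (p : ℤ) ∣ a' := by exact_mod_cast hpa
  have hpd' : ¬ (p : ℤ) ∣ d' := by exact_mod_cast hpd
  have n3 : (p : ℤ) ∣ C * a := (hpi.dvd_or_dvd k3).resolve_left hpa'
  have n4 : (p : ℤ) ∣ C * b + D * d := (hpi.dvd_or_dvd k4).resolve_left hpa'
  have n1 : (p : ℤ) ∣ A * a := by
    have : (p : ℤ) ∣ d' * (A * a) := by
      have := dvd_add k1 (n3.mul_left (b' : ℤ))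
      rwa [sub_add_cancel] at this
    exact (hpi.dvd_or_dvd this).resolve_left hpd'
  have n2 : (p : ℤ) ∣ A * b + B * d := by
    have : (p : ℤ) ∣ d' * (A * b + B * d) := by
      have := dvd_add k2 (n4.mul_left (b' : ℤ))
      rwa [sub_add_cancel] at this
    exact (hpi.dvd_or_dvd this).resolve_left hpd'
  apply hprim
  refine ⟨?_, ?_, ?_⟩
  · have e : (a : ℤ) = D * (A * a) - B * (C * a) := by linear_combination (-(a : ℤ)) * hdet
    have : (p : ℤ) ∣ (a : ℤ) := by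
      rw [e]; exact (n1.mul_left D).sub (n3.mul_left B)
    exact_mod_cast this
  · have e : (b : ℤ) = D * (A * b + B * d) - B * (C * b + D * d) := by
      linear_combination (-(b : ℤ)) * hdet
    have : (p : ℤ) ∣ (b : ℤ) := by
      rw [e]; exact (n2.mul_left D).sub (n4.mul_left B)
    exact_mod_cast this
  · have e : (d : ℤ) = A * (C * b + D * d) - C * (A * b + B * d) := by
      linear_combination (-(d : ℤ)) * hdet
    have : (p : ℤ) ∣ (d : ℤ) := by
      rw [e]; exact (n4.mul_left A).sub (n2.mul_left C)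
    exact_mod_cast this

/-- the point `(a z + b) / d` -/
noncomputable def nb (t : ℕ × ℕ × ℕ) (z : ℍ) : ℍ :=
  if h : 0 < t.1 ∧ 0 < t.2.2 then
    ((t.2.1 : ℝ) / t.2.2) +ᵥ ((⟨(t.1 : ℝ) / t.2.2, by
      have h1 : (0 : ℝ) < t.1 := by exact_mod_cast h.1
      have h2 : (0 : ℝ) < t.2.2 := by exact_mod_cast h.2
      positivity⟩ : {x : ℝ // 0 < x}) • z)
  else z

theorem coe_nb {t : ℕ × ℕ × ℕ} (h : 0 < t.1 ∧ 0 < t.2.2) (z : ℍ) :
    ((nb t z : ℍ) : ℂ) = ((t.1 : ℂ) * z + t.2.1) / t.2.2 := by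
  have h2 : (t.2.2 : ℂ) ≠ 0 := by exact_mod_cast h.2.ne'
  rw [nb, dif_pos h, coe_vadd, coe_pos_real_smul, Complex.real_smul]
  push_cast
  field_simp
  ring

theorem isometry_nb (t : ℕ × ℕ × ℕ) : Isometry (nb t) := by
  by_cases h : 0 < t.1 ∧ 0 < t.2.2
  · have : nb t = (fun z => ((t.2.1 : ℝ) / t.2.2) +ᵥ ((⟨(t.1 : ℝ) / t.2.2, by
      have h1 : (0 : ℝ) < t.1 := by exact_mod_cast h.1
      have h2 : (0 : ℝ) < t.2.2 := by exact_mod_cast h.2
      positivity⟩ : {x : ℝ // 0 < x}) • z)) := by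
      funext z
      rw [nb, dif_pos h]
    rw [this]
    exact (isometry_real_vadd _).comp (isometry_pos_mul _)
  · have : nb t = id := by
      funext z
      rw [nb, dif_neg h]
      rfl
    rw [this]
    exact isometry_id

theorem coe_sl (g : SL(2, ℤ)) (z : ℍ) : ((g • z : ℍ) : ℂ) =
    ((g 0 0 : ℂ) * z + (g 0 1 : ℂ)) / ((g 1 0 : ℂ) * z + (g 1 1 : ℂ)) := by
  rw [UpperHalfPlane.specialLinearGroup_apply]
  simp

theorem den_ne (g : SL(2, ℤ)) (z : ℍ) : (g 1 0 : ℂ) * z + (g 1 1 : ℂ) ≠ 0 := by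
  intro h0
  have hdet : g 0 0 * g 1 1 - g 0 1 * g 1 0 = 1 := by
    have := g.det_coe
    rw [Matrix.det_fin_two] at this
    exact this
  have him := congrArg Complex.im h0
  have hre := congrArg Complex.re h0
  simp at him hre
  rcases him with h | h
  · rw [h] at hre hdet
    simp at hre
    rw [hre] at hdet
    simp at hdet
  · exact absurd h z.im_pos.ne'

theorem dist_smul_sl (g : SL(2, ℤ)) (z w : ℍ) : dist (g • z) (g • w) = dist z w := by
  have h : ∀ x : ℍ, g • x = ((g.map (Int.castRingHom ℝ) : SL(2, ℝ)) • x : ℍ) := by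
    intro x
    ext
    rw [coe_sl, UpperHalfPlane.specialLinearGroup_apply]
    simp
  rw [h z, h w, dist_smul]

theorem pos_dist {w w' : ℍ} (h : ∀ g : SL(2, ℤ), g • w ≠ w') :
    ∃ r : ℝ, 0 < r ∧ ∀ g : SL(2, ℤ), r ≤ dist (g • w) w' := by
  have hfin := (inferInstance : ProperlyDiscontinuousSMul 𝒮ℒ ℍ).finite_disjoint_inter_image
    (K := {w}) (L := Metric.closedBall w' 1) isCompact_singleton (isCompact_closedBall _ _)
  set F := {γ : 𝒮ℒ | ((fun x => γ • x) '' ({w} : Set ℍ) ∩ Metric.closedBall w' 1).Nonempty}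
    with hF
  have hfin' : F.Finite := hfin
  set S : Set ℍ := (fun γ : 𝒮ℒ => γ • w) '' F with hS
  have hSfin : S.Finite := hfin'.image _
  have hmem : ∀ g : SL(2, ℤ), ∃ γ : 𝒮ℒ, γ • w = g • w := by
    intro g
    exact ⟨⟨(g : GL (Fin 2) ℝ), ⟨g, rfl⟩⟩, rfl⟩
  have hw' : w' ∉ S := by
    rintro ⟨γ, -, hγ⟩
    obtain ⟨γ', ⟨g, hg⟩⟩ := γ
    apply h g
    rw [← hγ]
    subst hg
    rfl
  obtain ⟨ε, hε, hball⟩ := Metric.isOpen_iff.1 hSfin.isClosed.isOpen_compl w' hw'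
  refine ⟨min ε 1, lt_min hε one_pos, fun g => ?_⟩
  by_contra hlt
  rw [not_le, lt_min_iff] at hlt
  obtain ⟨γ, hγ⟩ := hmem g
  have h1 : g • w ∈ S := by
    refine ⟨γ, ?_, hγ⟩
    refine ⟨γ • w, ⟨w, rfl, rfl⟩, ?_⟩
    rw [Metric.mem_closedBall, hγ]
    exact hlt.2.le
  exact hball (Metric.mem_ball.2 hlt.1) h1

/-- the separated large values for the points of `K` -/
def Sep (k : ℕ) (K : Set ℍ) : Prop :=
  ∃ (L : Set ℍ) (r C : ℝ), IsCompact L ∧ 0 < r ∧ 0 < C ∧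
    ∀ U : ℂ → ℂ, HeckeRel U → ∀ z ∈ K, ∃ w : Fin k → ℍ,
      (∀ i, w i ∈ L ∧ ‖U z‖ ≤ C * ‖U (w i)‖) ∧
      ∀ i j, i ≠ j → ∀ g : SL(2, ℤ), r ≤ dist (g • w i) (w j)

theorem sep_mono {k : ℕ} {K K' : Set ℍ} (h : K ⊆ K') (hs : Sep k K') : Sep k K := by
  obtain ⟨L, r, C, hL, hr, hC, H⟩ := hs
  exact ⟨L, r, C, hL, hr, hC, fun U hU z hz => H U hU z (h hz)⟩

theorem sep_union {k : ℕ} {K K' : Set ℍ} (h : Sep k K) (h' : Sep k K') : Sep k (K ∪ K') := by
  obtain ⟨L, r, C, hL, hr, hC, H⟩ := h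
  obtain ⟨L', r', C', hL', hr', hC', H'⟩ := h'
  refine ⟨L ∪ L', min r r', max C C', hL.union hL', lt_min hr hr', lt_max_of_lt_left hC,
    fun U hU z hz => ?_⟩
  rcases hz with hz | hz
  · obtain ⟨w, h1, h2⟩ := H U hU z hz
    refine ⟨w, fun i => ⟨Or.inl (h1 i).1, (h1 i).2.trans ?_⟩, fun i j hij g =>
      (min_le_left _ _).trans (h2 i j hij g)⟩
    exact mul_le_mul_of_nonneg_right (le_max_left _ _) (norm_nonneg _)
  · obtain ⟨w, h1, h2⟩ := H' U hU z hz
    refine ⟨w, fun i => ⟨Or.inr (h1 i).1, (h1 i).2.trans ?_⟩, fun i j hij g =>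
      (min_le_right _ _).trans (h2 i j hij g)⟩
    exact mul_le_mul_of_nonneg_right (le_max_right _ _) (norm_nonneg _)

theorem sep_empty (k : ℕ) : Sep k ∅ :=
  ⟨∅, 1, 1, isCompact_empty, one_pos, one_pos, fun _ _ z hz => absurd hz (notMem_empty z)⟩

/-- `k` different good primes -/
theorem exists_primes (z : ℍ) (k : ℕ) : ∃ P : Fin k → ℕ, Function.Injective P ∧
    ∀ i, (P i).Prime ∧ Good z (P i) := by
  have hinf : {p : ℕ | p.Prime ∧ Good z p}.Infinite := by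
    rw [Set.infinite_iff_exists_gt]
    intro n
    obtain ⟨p, h1, h2, h3⟩ := exists_good z.im_pos n
    exact ⟨p, ⟨h2, h3⟩, h1⟩
  obtain ⟨f, hf⟩ := hinf.natEmbedding
  obtain ⟨s, hs, hcard⟩ := hinf.exists_subset_card_eq k
  refine ⟨fun i => (s.orderEmbOfFin hcard i), (s.orderEmbOfFin hcard).injective, fun i => ?_⟩
  exact hs (s.orderEmbOfFin_mem hcard i)

theorem sep_nhds (k : ℕ) (z₀ : ℍ) : ∃ V ∈ 𝓝 z₀, Sep k V := by
  obtain ⟨P, hPinj, hP⟩ := exists_primes z₀ k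
  set M : ℕ := ∑ i, P i ^ 2 with hM
  set 𝒯 : Finset (ℕ × ℕ × ℕ) := Finset.range (M + 1) ×ˢ Finset.range (M + 1) ×ˢ
    Finset.range (M + 1) with h𝒯
  have hmem : ∀ i a b d, Prim (P i) a b d → (a, b, d) ∈ 𝒯 := by
    intro i a b d h
    have hle : P i ^ 2 ≤ M := Finset.single_le_sum (f := fun i => P i ^ 2)
      (fun _ _ => Nat.zero_le _) (Finset.mem_univ i)
    have hpp : P i ≤ P i ^ 2 := Nat.le_self_pow two_ne_zero _
    obtain ⟨ha, hd, had, -, hb⟩ := h
    have h1 : a * d ≤ M := by rcases had with h | h <;> omega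
    have h2 : a ≤ a * d := Nat.le_mul_of_pos_right _ hd
    have h3 : d ≤ a * d := Nat.le_mul_of_pos_left _ ha
    simp only [h𝒯, Finset.mem_product, Finset.mem_range]
    omega
  -- separation at the centre
  have hsep : ∀ q : ((Fin k × Fin k) × ((ℕ × ℕ × ℕ) × (ℕ × ℕ × ℕ))), ∃ r : ℝ, 0 < r ∧
      (q.1.1 ≠ q.1.2 → Prim (P q.1.1) q.2.1.1 q.2.1.2.1 q.2.1.2.2 →
        Prim (P q.1.2) q.2.2.1 q.2.2.2.1 q.2.2.2.2 →
        ∀ g : SL(2, ℤ), r ≤ dist (g • nb q.2.1 z₀) (nb q.2.2 z₀)) := by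
    rintro ⟨⟨i, j⟩, ⟨t, t'⟩⟩
    by_cases hc : i ≠ j ∧ Prim (P i) t.1 t.2.1 t.2.2 ∧ Prim (P j) t'.1 t'.2.1 t'.2.2
    · obtain ⟨hij, ht, ht'⟩ := hc
      have hne : ∀ g : SL(2, ℤ), g • nb t z₀ ≠ nb t' z₀ := by
        intro g heq
        have hdet : g 0 0 * g 1 1 - g 0 1 * g 1 0 = 1 := by
          have := g.det_coe
          rw [Matrix.det_fin_two] at this
          exact this
        have hpj : ¬ P i ∣ t'.1 * t'.2.2 := by
          intro hdiv
          have h1 : P i ∣ P j ^ 2 := by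
            rcases ht'.2.2.1 with h | h
            · rw [h] at hdiv
              exact hdiv.trans (dvd_pow_self _ two_ne_zero)
            · rwa [h] at hdiv
          have h2 : P i ∣ P j := (hP i).1.dvd_of_dvd_pow h1
          have h3 := (Nat.prime_dvd_prime_iff_eq (hP i).1 (hP j).1).1 h2
          exact hij (hPinj h3)
        have hden := den_ne g (nb t z₀)
        have h1 := ar (hP i).1 (hP i).2 ht (a' := t'.1) (b' := t'.2.1) (d' := t'.2.2)
          (fun h => hpj (h.mul_right _)) (fun h => hpj (h.mul_left _)) ht'.2.1 hdet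
          (by rwa [coe_nb ⟨ht.1, ht.2.1⟩] at hden)
        apply h1
        rw [← coe_nb ⟨ht.1, ht.2.1⟩ z₀, ← coe_nb ⟨ht'.1, ht'.2.1⟩ z₀, ← coe_sl, heq]
      obtain ⟨r, hr, h⟩ := pos_dist hne
      exact ⟨r, hr, fun _ _ _ => h⟩
    · refine ⟨1, one_pos, fun h1 h2 h3 => absurd ⟨h1, h2, h3⟩ hc⟩
  choose ρ hρ0 hρ using hsep
  obtain ⟨r, hr0, hr⟩ : ∃ r : ℝ, 0 < r ∧ ∀ q ∈ (Finset.univ : Finset (Fin k × Fin k)) ×ˢ (𝒯 ×ˢ 𝒯),
      4 * r ≤ ρ q := by
    rcases ((Finset.univ : Finset (Fin k × Fin k)) ×ˢ (𝒯 ×ˢ 𝒯)).eq_empty_or_nonempty with h | h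
    · exact ⟨1, one_pos, fun q hq => by rw [h] at hq; exact absurd hq (Finset.notMem_empty q)⟩
    · obtain ⟨q0, hq0, hmin⟩ := Finset.exists_min_image _ ρ h
      exact ⟨ρ q0 / 4, by have := hρ0 q0; positivity, fun q hq => by
        have := hmin q hq; linarith⟩
  refine ⟨Metric.closedBall z₀ r, Metric.closedBall_mem_nhds _ hr0,
    ⋃ t ∈ 𝒯, nb t '' Metric.closedBall z₀ r, r, (M : ℝ) + 2, ?_, hr0, by positivity, ?_⟩
  · exact 𝒯.isCompact_biUnion fun t _ =>
      (isCompact_closedBall _ _).image (isometry_nb t).continuous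
  · intro U hU z hz
    rw [Metric.mem_closedBall] at hz
    have hnb : ∀ i, ∃ a b d : ℕ, Prim (P i) a b d ∧
        ‖U (z : ℂ)‖ ≤ ((P i : ℝ) + 2) * ‖U (((a : ℂ) * z + (b : ℂ)) / (d : ℂ))‖ :=
      fun i => hecke_nbr hU (hP i).1 z.im_pos
    choose a b d hprim hle using hnb
    refine ⟨fun i => nb (a i, b i, d i) z, fun i => ⟨?_, ?_⟩, fun i j hij g => ?_⟩
    · simp only [mem_iUnion]
      exact ⟨_, hmem i _ _ _ (hprim i), z, Metric.mem_closedBall.2 hz, rfl⟩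
    · rw [coe_nb ⟨(hprim i).1, (hprim i).2.1⟩]
      refine (hle i).trans (mul_le_mul_of_nonneg_right ?_ (norm_nonneg _))
      have h1 : P i ^ 2 ≤ M := Finset.single_le_sum (f := fun i => P i ^ 2)
        (fun _ _ => Nat.zero_le _) (Finset.mem_univ i)
      have h2 : P i ≤ P i ^ 2 := Nat.le_self_pow two_ne_zero _
      have h3 : (P i : ℝ) ≤ M := by exact_mod_cast h2.trans h1
      linarith
    · have h1 := hρ ((i, j), ((a i, b i, d i), (a j, b j, d j))) hij (hprim i) (hprim j) g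
      have h2 := hr ((i, j), ((a i, b i, d i), (a j, b j, d j))) (by
        simp only [Finset.mem_product, Finset.mem_univ, true_and]
        exact ⟨hmem i _ _ _ (hprim i), hmem j _ _ _ (hprim j)⟩)
      have h3 : dist (g • nb (a i, b i, d i) z₀) (g • nb (a i, b i, d i) z) ≤ r := by
        rw [dist_smul_sl, (isometry_nb _).dist_eq, dist_comm]
        exact hz
      have h4 : dist (nb (a j, b j, d j) z) (nb (a j, b j, d j) z₀) ≤ r := by
        rw [(isometry_nb _).dist_eq]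
        exact hz
      have h5 := dist_triangle4 (g • nb (a i, b i, d i) z₀) (g • nb (a i, b i, d i) z)
        (nb (a j, b j, d j) z) (nb (a j, b j, d j) z₀)
      simp only at h1 h2
      linarith

theorem sep_compact (k : ℕ) {K : Set ℍ} (hK : IsCompact K) : Sep k K :=
  hK.induction_on (p := Sep k) (sep_empty k) (fun _ _ h hs => sep_mono h hs)
    (fun _ _ h h' => sep_union h h') fun z _ => by
      obtain ⟨V, hV, hs⟩ := sep_nhds k z
      exact ⟨V, mem_nhdsWithin_of_mem_nhds hV, hs⟩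

end Pool.Agent.N661.SN
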