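import Pool.Agent.N661.SN.Hecke

/-!
Large values of a Hecke eigenfunction at Hecke neighbours of high order.
-/

set_option autoImplicit false

open Finset

namespace Pool.Agent.N661.SN

variable {U : ℂ → ℂ} {p : ℕ}

theorem im_div_p (hp : p.Prime) {w : ℂ} (hw : 0 < w.im) (j : ℕ) :
    0 < ((w + (j : ℂ)) / (p : ℂ)).im := by
  have hp0 : (0 : ℝ) < p := by exact_mod_cast hp.pos
  have : ((w + (j : ℂ)) / (p : ℂ)).im = w.im / p := by
    rw [show (p : ℂ) = ((p : ℝ) : ℂ) by norm_cast, Complex.div_ofReal_im]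
    simp
  rw [this]; positivity

theorem perN (hU : HeckeRel U) (n : ℕ) : ∀ w : ℂ, 0 < w.im → U (w + n) = U w := by
  induction n with
  | zero => intro w _; simp
  | succ n ih =>
    intro w hw
    rw [Nat.cast_succ, ← add_assoc, hU.1 _ (by simpa using hw), ih w hw]

theorem heckeP (hU : HeckeRel U) (hp : p.Prime) : ∃ c : ℂ, ∀ w : ℂ, 0 < w.im →
    U ((p : ℂ) * w) + ∑ b ∈ range p, U ((w + (b : ℂ)) / (p : ℂ)) = c * U w := by
  obtain ⟨c, hc⟩ := hU.2 p hp.one_le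
  refine ⟨c, fun w hw => ?_⟩
  have h := hc w hw
  rw [Nat.Prime.divisors hp, Finset.sum_pair hp.one_lt.ne] at h
  rw [Nat.div_self hp.pos] at h
  simpa using h

theorem back (hU : HeckeRel U) (hp : p.Prime) {w : ℂ} (hw : 0 < w.im) (j : ℕ) :
    U ((p : ℂ) * ((w + (j : ℂ)) / (p : ℂ))) = U w := by
  have hpc : (p : ℂ) ≠ 0 := by exact_mod_cast hp.ne_zero
  rw [mul_div_cancel₀ _ hpc, perN hU j w hw]

/-- one step down, small eigenvalue -/
theorem step_small (hU : HeckeRel U) (hp : p.Prime) {c : ℂ}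
    (hc : ∀ w : ℂ, 0 < w.im →
      U ((p : ℂ) * w) + ∑ b ∈ range p, U ((w + (b : ℂ)) / (p : ℂ)) = c * U w)
    (hcs : ‖c‖ ≤ (p : ℝ) + 1) {w : ℂ} (hw : 0 < w.im) :
    (∃ j < p, ‖U w‖ ≤ (2 * ((p : ℝ) + 1)) * ‖U ((w + (j : ℂ)) / (p : ℂ))‖) ∨
    ∃ j < p, ∃ j' < p, ‖U w‖ ≤
      (2 * ((p : ℝ) + 1)) ^ 2 * ‖U (((w + (j : ℂ)) / (p : ℂ) + (j' : ℂ)) / (p : ℂ))‖ := by
  by_contra hcon
  rw [not_or] at hcon
  obtain ⟨h1, h2⟩ := hcon
  have hp1 : (1 : ℝ) ≤ p := by exact_mod_cast hp.one_le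
  set L : ℝ := 2 * ((p : ℝ) + 1) with hL
  have hL0 : 0 < L := by rw [hL]; positivity
  set x := ‖U w‖ with hx
  have c1 : ∀ j ∈ range p, ‖U ((w + (j : ℂ)) / (p : ℂ))‖ ≤ x / L := by
    intro j hj
    rw [le_div_iff₀ hL0, mul_comm]
    by_contra h
    exact h1 ⟨j, mem_range.1 hj, (not_le.1 h).le⟩
  have c2 : ∀ j ∈ range p, ∀ j' ∈ range p,
      ‖U (((w + (j : ℂ)) / (p : ℂ) + (j' : ℂ)) / (p : ℂ))‖ ≤ x / L ^ 2 := by
    intro j hj j' hj'
    rw [le_div_iff₀ (by positivity), mul_comm]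
    by_contra h
    exact h2 ⟨j, mem_range.1 hj, j', mem_range.1 hj', (not_le.1 h).le⟩
  have hx0 : 0 < x := by
    by_contra h
    apply h1
    refine ⟨0, hp.pos, ?_⟩
    have : x ≤ 0 := not_lt.1 h
    have h3 : 0 ≤ L * ‖U ((w + ((0 : ℕ) : ℂ)) / (p : ℂ))‖ := by positivity
    exact this.trans h3
  have hs : ‖∑ j ∈ range p, U ((w + (j : ℂ)) / (p : ℂ))‖ ≤ p * (x / L) := by
    have := nsum c1
    rwa [card_range] at this
  have hg : ∑ j ∈ range p, ∑ j' ∈ range p,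
      U (((w + (j : ℂ)) / (p : ℂ) + (j' : ℂ)) / (p : ℂ)) =
      c * (∑ j ∈ range p, U ((w + (j : ℂ)) / (p : ℂ))) - p * U w := by
    have : ∀ j ∈ range p, ∑ j' ∈ range p,
        U (((w + (j : ℂ)) / (p : ℂ) + (j' : ℂ)) / (p : ℂ)) =
        c * U ((w + (j : ℂ)) / (p : ℂ)) - U w := by
      intro j _
      rw [← hc _ (im_div_p hp hw j), back hU hp hw j]
      ring
    rw [sum_congr rfl this, sum_sub_distrib, sum_const, card_range, nsmul_eq_mul, mul_sum]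
  have hgn : ‖∑ j ∈ range p, ∑ j' ∈ range p,
      U (((w + (j : ℂ)) / (p : ℂ) + (j' : ℂ)) / (p : ℂ))‖ ≤ p * (p * (x / L ^ 2)) := by
    have := nsum (s := range p) (f := fun j => ∑ j' ∈ range p,
      U (((w + (j : ℂ)) / (p : ℂ) + (j' : ℂ)) / (p : ℂ))) (e := p * (x / L ^ 2)) (by
        intro j hj
        have := nsum (c2 j hj)
        rwa [card_range] at this)
    rwa [card_range] at this
  have hpx : (p : ℝ) * x ≤ ‖c‖ * (p * (x / L)) + p * (p * (x / L ^ 2)) := by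
    have e : (p : ℂ) * U w = c * (∑ j ∈ range p, U ((w + (j : ℂ)) / (p : ℂ))) -
        ∑ j ∈ range p, ∑ j' ∈ range p,
          U (((w + (j : ℂ)) / (p : ℂ) + (j' : ℂ)) / (p : ℂ)) := by
      rw [hg]; ring
    have h3 := norm_sub_le (c * (∑ j ∈ range p, U ((w + (j : ℂ)) / (p : ℂ))))
      (∑ j ∈ range p, ∑ j' ∈ range p,
          U (((w + (j : ℂ)) / (p : ℂ) + (j' : ℂ)) / (p : ℂ)))
    rw [← e, norm_mul, norm_mul, Complex.norm_natCast] at h3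
    have h4 := mul_le_mul_of_nonneg_left hs (norm_nonneg c)
    linarith
  have h5 : ‖c‖ * (p * (x / L)) ≤ ((p : ℝ) + 1) * (p * (x / L)) :=
    mul_le_mul_of_nonneg_right hcs (by positivity)
  have h6 : ((p : ℝ) + 1) * (p * (x / L)) = p * x / 2 := by
    rw [hL]; field_simp
  have h7 : p * (p * (x / L ^ 2)) ≤ x / 4 := by
    rw [hL]
    rw [show (p : ℝ) * (p * (x / (2 * ((p : ℝ) + 1)) ^ 2)) =
      (x / 4) * (p ^ 2 / ((p : ℝ) + 1) ^ 2) by field_simp; ring]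
    have : (p : ℝ) ^ 2 / ((p : ℝ) + 1) ^ 2 ≤ 1 := by
      rw [div_le_one (by positivity)]
      nlinarith
    have hx4 : 0 ≤ x / 4 := by positivity
    calc (x / 4) * (p ^ 2 / ((p : ℝ) + 1) ^ 2) ≤ (x / 4) * 1 :=
          mul_le_mul_of_nonneg_left this hx4
      _ = x / 4 := mul_one _
  nlinarith

/-- one step down, large eigenvalue -/
theorem step_large (hp : p.Prime) {c : ℂ}
    (hc : ∀ w : ℂ, 0 < w.im →
      U ((p : ℂ) * w) + ∑ b ∈ range p, U ((w + (b : ℂ)) / (p : ℂ)) = c * U w)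
    (hcl : (p : ℝ) + 1 ≤ ‖c‖) {w : ℂ} (hw : 0 < w.im) (hpar : ‖U ((p : ℂ) * w)‖ ≤ ‖U w‖) :
    ∃ j < p, ‖U w‖ ≤ ‖U ((w + (j : ℂ)) / (p : ℂ))‖ := by
  by_contra hcon
  have hp1 : (1 : ℝ) ≤ p := by exact_mod_cast hp.one_le
  have h1 : ∀ j ∈ range p, ‖U ((w + (j : ℂ)) / (p : ℂ))‖ < ‖U w‖ := by
    intro j hj
    by_contra h
    exact hcon ⟨j, mem_range.1 hj, not_lt.1 h⟩
  have hne : (range p).Nonempty := ⟨0, mem_range.2 hp.pos⟩
  have h2 : ‖∑ b ∈ range p, U ((w + (b : ℂ)) / (p : ℂ))‖ < p * ‖U w‖ := by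
    refine (norm_sum_le _ _).trans_lt ?_
    refine (sum_lt_sum_of_nonempty hne h1).trans_eq ?_
    rw [sum_const, card_range, nsmul_eq_mul]
  have h3 := norm_add_le (U ((p : ℂ) * w)) (∑ b ∈ range p, U ((w + (b : ℂ)) / (p : ℂ)))
  rw [hc w hw, norm_mul] at h3
  have h4 : ((p : ℝ) + 1) * ‖U w‖ ≤ ‖c‖ * ‖U w‖ := mul_le_mul_of_nonneg_right hcl (norm_nonneg _)
  linarith

/-- nodes all of whose descendants `(a, b + j d, p d)` are primitive -/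
def T1 (p a b d : ℕ) : Prop := 0 < a ∧ 0 < d ∧ b < d ∧ (¬ p ∣ a ∨ (p ∣ d ∧ ¬ p ∣ b))

theorem T1.child (hp : p.Prime) {a b d j : ℕ} (h : T1 p a b d) (hj : j < p) :
    T1 p a (b + j * d) (p * d) := by
  obtain ⟨ha, hd, hb, h⟩ := h
  refine ⟨ha, Nat.mul_pos hp.pos hd, ?_, ?_⟩
  · calc b + j * d < d + j * d := by omega
      _ = (j + 1) * d := by ring
      _ ≤ p * d := Nat.mul_le_mul_right _ hj
  · rcases h with h | ⟨h1, h2⟩
    · exact Or.inl h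
    · refine Or.inr ⟨dvd_mul_right _ _, fun h3 => h2 ?_⟩
      exact (Nat.dvd_add_left (h1.mul_left j)).1 h3

theorem child_pt (hp : p.Prime) {z : ℂ} {a b d : ℕ} (hd : 0 < d) (j : ℕ) :
    ((a : ℂ) * z + ((b + j * d : ℕ) : ℂ)) / ((p * d : ℕ) : ℂ) =
      ((((a : ℂ) * z + (b : ℂ)) / (d : ℂ)) + (j : ℂ)) / (p : ℂ) := by
  have hpc : (p : ℂ) ≠ 0 := by exact_mod_cast hp.ne_zero
  have hdc : (d : ℂ) ≠ 0 := by exact_mod_cast hd.ne'
  push_cast
  field_simp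
  ring

theorem im_pt {z : ℂ} (hz : 0 < z.im) {a b d : ℕ} (ha : 0 < a) (hd : 0 < d) :
    0 < (((a : ℂ) * z + (b : ℂ)) / (d : ℂ)).im := by
  have ha' : (0 : ℝ) < a := by exact_mod_cast ha
  have hd' : (0 : ℝ) < d := by exact_mod_cast hd
  have : (((a : ℂ) * z + (b : ℂ)) / (d : ℂ)).im = a * z.im / d := by
    rw [show (d : ℂ) = ((d : ℝ) : ℂ) by norm_cast, Complex.div_ofReal_im]
    simp [Complex.mul_im]
  rw [this]; positivity

theorem walk_small (hU : HeckeRel U) (hp : p.Prime) {c : ℂ}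
    (hc : ∀ w : ℂ, 0 < w.im →
      U ((p : ℂ) * w) + ∑ b ∈ range p, U ((w + (b : ℂ)) / (p : ℂ)) = c * U w)
    (hcs : ‖c‖ ≤ (p : ℝ) + 1) {z : ℂ} (hz : 0 < z.im) (J : ℕ) :
    ∃ a b d m : ℕ, T1 p a b d ∧ a * d = p ^ m ∧ (m = J ∨ m = J + 1) ∧
      ‖U z‖ ≤ (2 * ((p : ℝ) + 1)) ^ m * ‖U (((a : ℂ) * z + (b : ℂ)) / (d : ℂ))‖ := by
  induction J with
  | zero =>
    refine ⟨1, 0, 1, 0, ⟨one_pos, one_pos, one_pos, Or.inl fun h => ?_⟩, by simp, Or.inl rfl, ?_⟩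
    · exact hp.one_lt.ne' (Nat.dvd_one.1 h)
    · simp
  | succ J ih =>
    obtain ⟨a, b, d, m, hT, had, hm, hle⟩ := ih
    rcases hm with hm | hm
    · subst hm
      have hL0 : (0 : ℝ) < 2 * ((p : ℝ) + 1) := by positivity
      rcases step_small hU hp hc hcs (im_pt hz hT.1 hT.2.1 (b := b)) with
        ⟨j, hj, h⟩ | ⟨j, hj, j', hj', h⟩
      · refine ⟨a, b + j * d, p * d, m + 1, hT.child hp hj, ?_, Or.inl rfl, ?_⟩
        · rw [pow_succ, ← had]; ring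
        · rw [child_pt hp hT.2.1 j, pow_succ, mul_assoc]
          exact hle.trans (mul_le_mul_of_nonneg_left h (by positivity))
      · have hT' := hT.child hp hj
        refine ⟨a, b + j * d + j' * (p * d), p * (p * d), m + 2, hT'.child hp hj', ?_,
          Or.inr rfl, ?_⟩
        · rw [pow_add, ← had]; ring
        · rw [child_pt hp hT'.2.1 j', child_pt hp hT.2.1 j, pow_add, mul_assoc]
          exact hle.trans (mul_le_mul_of_nonneg_left h (by positivity))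
    · exact ⟨a, b, d, m, hT, had, Or.inl hm, hle⟩

theorem walk_large1 (hU : HeckeRel U) (hp : p.Prime) {c : ℂ}
    (hc : ∀ w : ℂ, 0 < w.im →
      U ((p : ℂ) * w) + ∑ b ∈ range p, U ((w + (b : ℂ)) / (p : ℂ)) = c * U w)
    (hcl : (p : ℝ) + 1 ≤ ‖c‖) {z : ℂ} (hz : 0 < z.im) (J : ℕ) {a b d m : ℕ} (hT : T1 p a b d)
    (had : a * d = p ^ m)
    (hpar : ‖U ((p : ℂ) * (((a : ℂ) * z + (b : ℂ)) / (d : ℂ)))‖ ≤
      ‖U (((a : ℂ) * z + (b : ℂ)) / (d : ℂ))‖) :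
    ∃ a' b' d' : ℕ, T1 p a' b' d' ∧ a' * d' = p ^ (m + J) ∧
      ‖U (((a : ℂ) * z + (b : ℂ)) / (d : ℂ))‖ ≤
        ‖U (((a' : ℂ) * z + (b' : ℂ)) / (d' : ℂ))‖ ∧
      ‖U ((p : ℂ) * (((a' : ℂ) * z + (b' : ℂ)) / (d' : ℂ)))‖ ≤
        ‖U (((a' : ℂ) * z + (b' : ℂ)) / (d' : ℂ))‖ := by
  induction J with
  | zero => exact ⟨a, b, d, hT, had, le_rfl, hpar⟩
  | succ J ih =>
    obtain ⟨a', b', d', hT', had', hle, hpar'⟩ := ih
    obtain ⟨j, hj, h⟩ := step_large hp hc hcl (im_pt hz hT'.1 hT'.2.1 (b := b')) hpar'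
    refine ⟨a', b' + j * d', p * d', hT'.child hp hj, ?_, ?_, ?_⟩
    · rw [← add_assoc, pow_succ, ← had']; ring
    · rw [child_pt hp hT'.2.1 j]
      exact hle.trans h
    · rw [child_pt hp hT'.2.1 j, back hU hp (im_pt hz hT'.1 hT'.2.1) j]
      exact h

theorem walk_large2 (hU : HeckeRel U) (hp : p.Prime) {c : ℂ}
    (hc : ∀ w : ℂ, 0 < w.im →
      U ((p : ℂ) * w) + ∑ b ∈ range p, U ((w + (b : ℂ)) / (p : ℂ)) = c * U w)
    (hcl : (p : ℝ) + 1 ≤ ‖c‖) {z : ℂ} (hz : 0 < z.im) (J : ℕ) : ∀ m : ℕ,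
    ‖U ((p : ℂ) ^ m * z)‖ ≤ ‖U ((p : ℂ) ^ (m + 1) * z)‖ →
    ∃ a b d : ℕ, 0 < a ∧ 0 < d ∧ b < d ∧ ¬ (p ∣ a ∧ p ∣ b ∧ p ∣ d) ∧ a * d = p ^ (m + 1 + J) ∧
      ‖U ((p : ℂ) ^ (m + 1) * z)‖ ≤ ‖U (((a : ℂ) * z + (b : ℂ)) / (d : ℂ))‖ := by
  have hpc : (p : ℂ) ≠ 0 := by exact_mod_cast hp.ne_zero
  induction J with
  | zero =>
    intro m _
    refine ⟨p ^ (m + 1), 0, 1, pow_pos hp.pos _, one_pos, one_pos,
      fun h => hp.one_lt.ne' (Nat.dvd_one.1 h.2.2), by simp, ?_⟩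
    apply le_of_eq
    congr 2
    push_cast
    simp
  | succ J ih =>
    intro m hpar
    set w : ℂ := (p : ℂ) ^ (m + 1) * z with hw
    have hwim : 0 < w.im := by
      have h := im_pt hz (a := p ^ (m + 1)) (b := 0) (d := 1) (pow_pos hp.pos _) one_pos
      simpa [hw] using h
    by_cases hup : ‖U w‖ ≤ ‖U ((p : ℂ) * w)‖
    · have e : (p : ℂ) * w = (p : ℂ) ^ (m + 1 + 1) * z := by rw [hw]; ring
      rw [e] at hup
      obtain ⟨a, b, d, h1, h2, h3, h4, h5, h6⟩ := ih (m + 1) hup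
      refine ⟨a, b, d, h1, h2, h3, h4, ?_, hup.trans h6⟩
      rw [h5]; congr 1; ring
    · rw [not_le] at hup
      have hj : ∃ j < p, j ≠ 0 ∧ ‖U w‖ ≤ ‖U ((w + (j : ℂ)) / (p : ℂ))‖ := by
        by_contra hcon
        have h1 : ∀ j ∈ (range p).erase 0, ‖U ((w + (j : ℂ)) / (p : ℂ))‖ ≤ ‖U w‖ := by
          intro j hj
          obtain ⟨hj0, hj1⟩ := mem_erase.1 hj
          by_contra h
          exact hcon ⟨j, mem_range.1 hj1, hj0, (not_le.1 h).le⟩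
        have h2 := nsum h1
        rw [card_erase_of_mem (mem_range.2 hp.pos), card_range, Nat.cast_sub hp.one_le,
          Nat.cast_one] at h2
        have h3 := hc w hwim
        rw [← Finset.add_sum_erase _ _ (mem_range.2 hp.pos)] at h3
        have e0 : (w + ((0 : ℕ) : ℂ)) / (p : ℂ) = (p : ℂ) ^ m * z := by
          rw [hw, pow_succ]; field_simp; simp
        rw [e0] at h3
        have h4 : ‖c * U w‖ < ‖U w‖ + (‖U w‖ + ((p : ℝ) - 1) * ‖U w‖) := by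
          rw [← h3]
          refine (norm_add_le _ _).trans_lt ?_
          have h5 := norm_add_le (U ((p : ℂ) ^ m * z))
            (∑ b ∈ (range p).erase 0, U ((w + (b : ℂ)) / (p : ℂ)))
          linarith
        rw [norm_mul] at h4
        have h5 : ((p : ℝ) + 1) * ‖U w‖ ≤ ‖c‖ * ‖U w‖ :=
          mul_le_mul_of_nonneg_right hcl (norm_nonneg _)
        linarith
      obtain ⟨j, hjp, hj0, hle⟩ := hj
      have hT : T1 p (p ^ (m + 1)) j p :=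
        ⟨pow_pos hp.pos _, hp.pos, hjp, Or.inr ⟨dvd_rfl, fun h =>
          absurd (Nat.le_of_dvd (Nat.pos_of_ne_zero hj0) h) (by omega)⟩⟩
      have e1 : (((p ^ (m + 1) : ℕ) : ℂ) * z + (j : ℂ)) / (p : ℂ) = (w + (j : ℂ)) / (p : ℂ) := by
        rw [hw]; push_cast; ring
      obtain ⟨a, b, d, hT', had, h1, -⟩ := walk_large1 hU hp hc hcl hz J hT
        (m := m + 2) (by ring) (by rw [e1, back hU hp hwim j]; exact hle)
      refine ⟨a, b, d, hT'.1, hT'.2.1, hT'.2.2.1, ?_, ?_, ?_⟩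
      · rintro ⟨k1, k2, k3⟩
        rcases hT'.2.2.2 with h | h
        · exact h k1
        · exact h.2 k2
      · rw [had]; congr 1; ring
      · rw [e1] at h1
        exact hle.trans h1

/-- For every prime `p` and every `J ≥ 1` a value `U z` is controlled by the value at a primitive
Hecke neighbour of order `p ^ J` or `p ^ (J + 1)`. -/
theorem walk (hU : HeckeRel U) (hp : p.Prime) {z : ℂ} (hz : 0 < z.im) (J : ℕ) (hJ : 1 ≤ J) :
    ∃ a b d m : ℕ, 0 < a ∧ 0 < d ∧ b < d ∧ ¬ (p ∣ a ∧ p ∣ b ∧ p ∣ d) ∧ a * d = p ^ m ∧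
      (m = J ∨ m = J + 1) ∧
      ‖U z‖ ≤ (2 * ((p : ℝ) + 1)) ^ m * ‖U (((a : ℂ) * z + (b : ℂ)) / (d : ℂ))‖ := by
  obtain ⟨c, hc⟩ := heckeP hU hp
  have hL : (1 : ℝ) ≤ 2 * ((p : ℝ) + 1) := by
    have : (0 : ℝ) ≤ p := Nat.cast_nonneg _
    linarith
  have hprim : ∀ {a b d : ℕ}, T1 p a b d → ¬ (p ∣ a ∧ p ∣ b ∧ p ∣ d) := by
    rintro a b d h ⟨k1, k2, -⟩
    rcases h.2.2.2 with h | h
    · exact h k1
    · exact h.2 k2
  rcases le_total ‖c‖ ((p : ℝ) + 1) with hcs | hcl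
  · obtain ⟨a, b, d, m, hT, had, hm, hle⟩ := walk_small hU hp hc hcs hz J
    exact ⟨a, b, d, m, hT.1, hT.2.1, hT.2.2.1, hprim hT, had, hm, hle⟩
  · rcases le_total ‖U ((p : ℂ) * z)‖ ‖U z‖ with hpar | hpar
    · obtain ⟨a, b, d, hT, had, hle, -⟩ := walk_large1 hU hp hc hcl hz J (a := 1) (b := 0) (d := 1)
        (m := 0) ⟨one_pos, one_pos, one_pos, Or.inl fun h => hp.one_lt.ne' (Nat.dvd_one.1 h)⟩
        (by simp) (by simpa using hpar)
      refine ⟨a, b, d, J, hT.1, hT.2.1, hT.2.2.1, hprim hT, by rw [had]; simp, Or.inl rfl, ?_⟩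
      have h1 : ‖U z‖ ≤ ‖U (((a : ℂ) * z + (b : ℂ)) / (d : ℂ))‖ := by simpa using hle
      exact h1.trans (le_mul_of_one_le_left (norm_nonneg _) (one_le_pow₀ hL))
    · obtain ⟨a, b, d, h1, h2, h3, h4, h5, h6⟩ := walk_large2 hU hp hc hcl hz (J - 1) 0
        (by simpa using hpar)
      refine ⟨a, b, d, J, h1, h2, h3, h4, by rw [h5]; congr 1; omega, Or.inl rfl, ?_⟩
      have h7 : ‖U z‖ ≤ ‖U (((a : ℂ) * z + (b : ℂ)) / (d : ℂ))‖ := by
        refine hpar.trans ?_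
        simpa using h6
      exact h7.trans (le_mul_of_one_le_left (norm_nonneg _) (one_le_pow₀ hL))

end Pool.Agent.N661.SN
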